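import Pool.Agent.Helper56.TS.Type41
import Pool.Agent.Helper84.TS.Cases

/-!
# The case `(2,3,4,1)` of the finite-dimensional problem
-/

set_option autoImplicit false

namespace Pool.Agent.Helper56.TS

open Pool.Agent.Helper84.TS Pool.Agent.Helper36.TS

theorem caseT2341 : CaseT2341 := by
  intro A P hB h1 i j k l hn li lj lk ll
  have hne : i ≠ j ∧ i ≠ k ∧ i ≠ l ∧ j ≠ k ∧ j ≠ l ∧ k ≠ l := by
    clear * - hn; revert hn; revert i j k l; decide
  obtain ⟨a1, a2, a3, a4, a5, a6⟩ := hne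
  refine T41.type_2341 hB.of hB.hP (fun i => (hB.hd i).le)
    (fun i m F hm hF => hB.hw i m F hm hF) (fun m a b ha hb hab => ?_) hn
    ⟨li.le k a2.symm, li.le l a3.symm⟩ ⟨lj.le l a5.symm, lj.le i a1⟩
    ⟨lk.le i a2, lk.le j a4⟩ ⟨ll.le j a5, ll.le k a6⟩
  rcases hFa : A a m with _ | F
  · exact Or.inl rfl
  · rcases hFb : A b m with _ | G
    · exact Or.inr rfl
    · exact absurd (h1 m a b F G ha hb hFa hFb) hab

end Pool.Agent.Helper56.TS
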