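import Pool.Agent.Helper56.TS.C41a
import Pool.Agent.Helper56.TS.C41b
import Pool.Agent.Helper56.TS.C41c
import Pool.Agent.Helper56.TS.C41d

/-!
# The type (2,3,4,1): a column in real variables
-/

set_option autoImplicit false

namespace Pool.Agent.Helper56.TS.T41

open Pool.Agent.Helper84.TS Pool.Agent.Helper36.TS

theorem slot_zero (c d : ℝ) : slot c d 0 = 0 := by
  rw [slot]
  ring

/-- the cell in the variables `A = 1 - al`, `B = 1 - be` -/
theorem farc_ab {f w d al be ui ux uy di dx dy sx sy : ℝ}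
    (F : FarC f w d al be ui ux uy di dx dy sx sy) (hx : ux ≤ 1) (hy : uy ≤ 1) :
    ∃ A B, 0 ≤ A ∧ 0 ≤ B ∧ A + B = 1 + w - d ∧ w ≤ A + B ∧ f = vf w A B ∧
      (A + ux ≤ 1 + dx ∨ di - d + (ux - min ui ux) ≤ sx) ∧
      (B + uy ≤ 1 + dy ∨ di - d + (uy - min ui uy) ≤ sy) := by
  have w1 := F.w1
  have hs := F.sum
  have al1 := F.al1
  have be1 := F.be1
  have d1 := F.d1
  have cx := F.capx
  have cy := F.capy
  rw [min_eq_left (by linarith : ux ≤ 2 - w)] at cx
  rw [min_eq_left (by linarith : uy ≤ 2 - w)] at cy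
  refine ⟨1 - al, 1 - be, by linarith, by linarith, by linarith, by linarith, ?_, ?_, ?_⟩
  · rw [F.vol, vf, show d - al = w - (1 - be) by linarith, show d - be = w - (1 - al) by linarith]
    ring
  · rcases cx with h | h
    · left; linarith
    · right; exact h
  · rcases cy with h | h
    · left; linarith
    · right; exact h

/-- the bound `3/8` for a far cell -/
theorem vf_le_const {w A B : ℝ} (hw : 0 ≤ w) (hw1 : w ≤ 13 / 20) (hA : 0 ≤ A) (hB : 0 ≤ B)
    (hAB : w ≤ A + B) (hAB1 : A + B ≤ 1 + w) : vf w A B ≤ 3 / 8 := by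
  have h1 := vf_le hw hA hB hAB
  have h2 : (A + B) ^ 2 ≤ (1 + w) ^ 2 := pow_le_pow_left₀ (by linarith) hAB1 2
  have h3 := mul_le_mul_of_nonneg_left h2 hw
  have h4 : w * w ≤ 13 / 20 * w := mul_le_mul_of_nonneg_right hw1 hw
  nlinarith

theorem vf_le_one {w A B : ℝ} (hw : 0 ≤ w) (hA : 0 ≤ A) (hB : 0 ≤ B)
    (hAB : w ≤ A + B) (hAB1 : A + B ≤ 1 + w) :
    vf w A B ≤ w * (1 + w) ^ 2 / 4 - w ^ 3 / 4 := by
  have h1 := vf_le hw hA hB hAB
  have h2 : (A + B) ^ 2 ≤ (1 + w) ^ 2 := pow_le_pow_left₀ (by linarith) hAB1 2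
  have h3 := mul_le_mul_of_nonneg_left h2 hw
  linarith

theorem max_sub_le {de dF : ℝ} (h : 0 ≤ de) (hF : 0 ≤ dF) : max (de - dF) 0 ≤ de :=
  max_le (by linarith) h

theorem sub_max_ge {de dF : ℝ} (h : 0 ≤ de) (hF : 0 ≤ dF) :
    -dF ≤ de - dF - max (de - dF) 0 := by
  have := max_sub_le h hF
  linarith

/-- a slot with a multiple of the slack -/
theorem sx_max_sub {c d u L : ℝ} (hc : L ≤ c) (h0 : -(1 - d) ≤ u) (h1 : u ≤ 1) :
    sx c d u - L * u ≤ slot c d (max u 0) - L * max u 0 := by
  rcases le_total 0 u with hu | hu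
  · rw [max_eq_left hu, sx_slot hu h1]
  · rw [max_eq_right hu, slot_zero]
    have a1 := sx_neg hu h0 (c := c)
    have a2 := mul_nonneg (sub_nonneg.2 hc) (neg_nonneg.2 hu)
    linarith

/-- **No far cell** (`p` the smaller entry) -/
theorem col_none {ue up uq de dp dq : ℝ} (D : D3 de dp dq) (he : ue ≤ 1) (hp : up ≤ 1)
    (hq : uq ≤ 1) (ge : -(1 - de) ≤ ue) (gp : -(1 - dp) ≤ up) (gq : -(1 - dq) ≤ uq) :
    sx (xx de dp dq) de ue + sx (cs dp dq) dp up + sx (nu dq) dq uq ≤ WW de dp dq := by
  have h := cn (ue := max ue 0) (up := max up 0) (uq := max uq 0) D (le_max_right _ _)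
    (max_le he zero_le_one) (le_max_right _ _) (max_le hp zero_le_one) (le_max_right _ _)
    (max_le hq zero_le_one)
  have h1 := sx_max (xx_nonneg D) ge he
  have h2 := sx_max (cs_nonneg D) gp hp
  have h3 := sx_max (nu_nonneg D.q1) gq hq
  linarith

/-- **The far class is the lowest one** (`p` the smaller entry) -/
theorem col_low {f w dF al be ue up uq de dp dq sp sq : ℝ} (D : D3 de dp dq)
    (F : FarC f w dF al be ue up uq de dp dq sp sq) (hw1 : w ≤ 13 / 20)
    (own : w ≤ -ue + max (de - dF) 0) (hep : ue ≤ up) (hpq : up ≤ uq) (hq1 : uq ≤ 1)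
    (ge : -(1 - de) ≤ ue) (gp : -(1 - dp) ≤ up) (gq : -(1 - dq) ≤ uq) :
    ∃ Lp Lq, (0 ≤ Lp ∧ Lp ≤ Lf de dp) ∧ (0 ≤ Lq ∧ Lq ≤ Lf de dq) ∧
      sx (xx de dp dq) de ue + sx (cs dp dq) dp up + sx (nu dq) dq uq + f
        ≤ WW de dp dq + Lp * sp + Lq * sq := by
  have hp1 : up ≤ 1 := by linarith
  have he1 : ue ≤ 1 := by linarith
  obtain ⟨A, B, hA, hB, hAB, hwAB, rfl, cx, cy⟩ := farc_ab F hp1 hq1
  rw [min_eq_left hep] at cx
  rw [min_eq_left (hep.trans hpq)] at cy
  have w0 := F.w0.le
  have d0 := F.d0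
  have d1 := F.d1
  have e0 := D.e0
  have p0 := D.p0
  have q0 := D.q0
  obtain ⟨y, z, E, hyz⟩ := exists_ez w0 hw1 D.e0 D.e1
  have hmax := max_sub_le D.e0 d0
  have hmax2 := sub_max_ge D.e0 d0
  have hue : ue ≤ z - y := by
    have := E.eq
    linarith
  have X := xx_nonneg D
  have C := cs_nonneg D
  have N := nu_nonneg D.q1
  have Lp0 := Lf_nonneg D.e0 D.e1 D.p0 D.p1
  have Lq0 := Lf_nonneg D.e0 D.e1 D.q0 D.q1
  have se := sx_ey X (by linarith [D.e1]) E.y0 E.z0 hyz hue ge he1
  have mp0 : 0 ≤ max up 0 := le_max_right _ _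
  have mp1 : max up 0 ≤ 1 := max_le hp1 zero_le_one
  have sp' := sx_max C gp hp1
  have hAB1 : A + B ≤ 1 + w := by linarith
  have zero : ∀ {x : ℝ}, x ≤ WW de dp dq → x ≤ WW de dp dq + 0 * sp + 0 * sq := by
    intro x hx
    linarith
  rcases le_total uq 0 with hq0 | hq0
  · refine ⟨0, 0, ⟨le_refl _, Lp0⟩, ⟨le_refl _, Lq0⟩, zero ?_⟩
    have t := ct (ue := 0) D (le_refl 0) zero_le_one
    rw [slot_zero] at t
    have h1 := sx_nonpos X (by linarith : ue ≤ 0) ge
    have h2 := sx_nonpos C (by linarith : up ≤ 0) gp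
    have h3 := sx_nonpos N hq0 gq
    have h4 := vf_le_const w0 hw1 hA hB hwAB hAB1
    linarith
  have sq' := sx_slot (c := nu dq) (d := dq) hq0 hq1
  -- the volume in terms of `d`
  have vS : vf w A B ≤ w * (1 + w - dF) ^ 2 / 4 - w ^ 3 / 4 := by
    have := vf_le w0 hA hB hwAB
    rwa [hAB] at this
  -- large `dF`
  have free : 7 / 10 ≤ dF → sx (xx de dp dq) de ue + sx (cs dp dq) dp up + sx (nu dq) dq uq
      + vf w A B ≤ WW de dp dq := by
    intro h7
    have h := cfree (w := w) (dF := dF) (up := max up 0) (uq := uq) D w0 hw1 d0 mp0 mp1 hq0 hq1 h7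
      d1.le
    have hm : max (de - dF) 0 = 0 := max_eq_right (by linarith [D.e1])
    rw [hm] at own
    have h1 := sx_ny X w0 (by linarith : ue ≤ -w) ge
    linarith
  by_cases hx : A + up ≤ 1 + dp
  · by_cases hy : B + uq ≤ 1 + dq
    · -- kinds A, A
      refine ⟨0, 0, ⟨le_refl _, Lp0⟩, ⟨le_refl _, Lq0⟩, zero ?_⟩
      by_cases hA1 : A ≤ 1 + dp
      · have hcp : A + max up 0 ≤ 1 + dp := by
          rcases max_cases up 0 with ⟨e, -⟩ | ⟨e, -⟩ <;> rw [e] <;> linarith
        rcases le_total w A with a | a <;> rcases le_total w B with b | b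
        · have h := caa1 E D hA hB mp0 mp1 hq0 hq1 hcp hy hAB1 a b
          rw [vf1 a b]
          linarith
        · have h := caa2 E D hA hB mp0 mp1 hq0 hq1 hcp hy hAB1 a b
          rw [vf2 a b]
          linarith
        · have h := caa3 E D hA hB mp0 mp1 hq0 hq1 hcp hy hAB1 a b
          rw [vf3 a b]
          linarith
        · have h := caa4 E D hA hB mp0 mp1 hq0 hq1 hcp hy hAB1 a b
          rw [vf4 a b]
          linarith
      · push Not at hA1
        have ht : 0 ≤ A - 1 - dp := by linarith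
        have a : w ≤ A := by linarith
        have b : B ≤ w := by linarith
        have e : 1 + dp + (A - 1 - dp) = A := by ring
        have h := cam (t := A - 1 - dp) E D ht hB hq0 hq1 hy (by rw [e]; exact hAB1) b
        rw [e] at h
        have h1 := sx_neg (c := cs dp dq) (by linarith : up ≤ 0) gp
        have h2 : cs dp dq * up ≤ cs dp dq * -(A - 1 - dp) :=
          mul_le_mul_of_nonneg_left (by linarith) C
        rw [vf2 a b]
        linarith
    · -- kinds A, B
      have ky : uq + w - dF ≤ sq := by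
        rcases cy with h | h
        · exact absurd h hy
        · linarith
      rcases le_total dF (7 / 10) with h7 | h7
      · have hT : 1 + w - A - B ≤ 7 / 10 := by linarith
        have eF : 1 + w - A - B = dF := by linarith
        refine ⟨0, Lf de dq, ⟨le_refl _, Lp0⟩, ⟨Lq0, le_refl _⟩, ?_⟩
        have hL := mul_le_mul_of_nonneg_left ky Lq0
        by_cases hA1 : A ≤ 1 + dp
        · have hcp : A + max up 0 ≤ 1 + dp := by
            rcases max_cases up 0 with ⟨e, -⟩ | ⟨e, -⟩ <;> rw [e] <;> linarith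
          rcases le_total w A with a | a <;> rcases le_total w B with b | b
          · have h := cd1 E D hA hB mp0 mp1 hq0 hq1 hcp hAB1 hT a b
            rw [eF] at h
            rw [vf1 a b]
            linarith
          · have h := cd2 E D hA hB mp0 mp1 hq0 hq1 hcp hAB1 hT a b
            rw [eF] at h
            rw [vf2 a b]
            linarith
          · have h := cd3 E D hA hB mp0 mp1 hq0 hq1 hcp hAB1 hT a b
            rw [eF] at h
            rw [vf3 a b]
            linarith
          · have h := cd4 E D hA hB mp0 mp1 hq0 hq1 hcp hAB1 hT a b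
            rw [eF] at h
            rw [vf4 a b]
            linarith
        · push Not at hA1
          have ht : 0 ≤ A - 1 - dp := by linarith
          have a : w ≤ A := by linarith
          have b : B ≤ w := by linarith
          have e : 1 + dp + (A - 1 - dp) = A := by ring
          have h := cdm (t := A - 1 - dp) E D ht hB hq0 hq1 (by rw [e]; exact hAB1)
          rw [e, eF] at h
          have h1 := sx_neg (c := cs dp dq) (by linarith : up ≤ 0) gp
          have h2 : cs dp dq * up ≤ cs dp dq * -(A - 1 - dp) :=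
            mul_le_mul_of_nonneg_left (by linarith) C
          rw [vf2 a b]
          linarith
      · exact ⟨0, 0, ⟨le_refl _, Lp0⟩, ⟨le_refl _, Lq0⟩, zero (free h7)⟩
  · have kx : up + w - dF ≤ sp := by
      rcases cx with h | h
      · exact absurd h hx
      · linarith
    have sL := sx_max_sub (Lf_le_cs D) gp hp1
    have hLp := mul_le_mul_of_nonneg_left kx Lp0
    by_cases hy : B + uq ≤ 1 + dq
    · -- kinds B (the smaller), A (the larger)
      rcases le_total dF (3 / 10) with h3 | h3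
      · have hT : 1 + w - B - A ≤ 3 / 10 := by linarith
        have eF : 1 + w - B - A = dF := by linarith
        have hBA : B + A ≤ 1 + w := by linarith
        refine ⟨Lf de dp, 0, ⟨Lp0, le_refl _⟩, ⟨le_refl _, Lq0⟩, ?_⟩
        rw [vf_comm]
        rcases le_total w B with a | a <;> rcases le_total w A with b | b
        · have h := cl1 E D.swap hB hA hq0 hq1 mp0 mp1 hy hBA hT a b
          rw [eF, xx_comm, WW_comm] at h
          rw [vf1 a b]
          linarith
        · have h := cl2 E D.swap hB hA hq0 hq1 mp0 mp1 hy hBA hT a b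
          rw [eF, xx_comm, WW_comm] at h
          rw [vf2 a b]
          linarith
        · have h := cl3 E D.swap hB hA hq0 hq1 mp0 mp1 hy hBA hT a b
          rw [eF, xx_comm, WW_comm] at h
          rw [vf3 a b]
          linarith
        · exfalso
          linarith
      · refine ⟨0, 0, ⟨le_refl _, Lp0⟩, ⟨le_refl _, Lq0⟩, zero ?_⟩
        have m := vf_mono w0 hB hA (by linarith : w ≤ B + A) (by linarith : A ≤ 7 / 10 + w - B)
        rw [vf_comm]
        have hB' : 0 ≤ 7 / 10 + w - B := by linarith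
        rcases le_total w B with a | a
        · rcases le_total B (7 / 10) with b | b
          · have h := cz1 E D.swap hB hB' hq0 hq1 mp0 mp1 hy a b
            rw [xx_comm, WW_comm] at h
            rw [vf1 a (by linarith : w ≤ 7 / 10 + w - B)] at m
            linarith
          · have h := cz2 E D.swap hB hB' hq0 hq1 mp0 mp1 hy a b
            rw [xx_comm, WW_comm] at h
            rw [vf2 a (by linarith : 7 / 10 + w - B ≤ w)] at m
            linarith
        · have h := cz3 E D.swap hB hB' hq0 hq1 mp0 mp1 hy a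
          rw [xx_comm, WW_comm] at h
          rw [vf3 a (by linarith : w ≤ 7 / 10 + w - B)] at m
          linarith
    · -- kinds B, B
      have ky : uq + w - dF ≤ sq := by
        rcases cy with h | h
        · exact absurd h hy
        · linarith
      have hLq := mul_le_mul_of_nonneg_left ky Lq0
      rcases le_total dF (3 / 10) with h3 | h3
      · refine ⟨Lf de dp, Lf de dq, ⟨Lp0, le_refl _⟩, ⟨Lq0, le_refl _⟩, ?_⟩
        have h := cb3 E D d0 mp0 mp1 hq0 hq1 h3
        linarith
      · rcases le_total dF (7 / 10) with h7 | h7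
        · refine ⟨0, Lf de dq, ⟨le_refl _, Lp0⟩, ⟨Lq0, le_refl _⟩, ?_⟩
          have h := cb7 E D d0 mp0 mp1 hq0 hq1 h3 h7
          linarith
        · exact ⟨0, 0, ⟨le_refl _, Lp0⟩, ⟨le_refl _, Lq0⟩, zero (free h7)⟩

/-- **The far class `p` is not the lowest one.** -/
theorem col_high {f w dF al be ue up uq de dp dq s1 s2 : ℝ} (D : D3 de dp dq)
    (F : FarC f w dF al be up ue uq dp de dq s1 s2) (hw1 : w ≤ 13 / 20)
    (own : w ≤ -up + max (dp - dF) 0) (hep : ue ≤ up) (heq : ue ≤ uq) (hp1 : up ≤ 1)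
    (hq1 : uq ≤ 1) (ge : -(1 - de) ≤ ue) (gp : -(1 - dp) ≤ up) (gq : -(1 - dq) ≤ uq) :
    ∃ L, (0 ≤ L ∧ L ≤ 2 / 5 * kA dp dq) ∧
      sx (xx de dp dq) de ue + sx (nu dp) dp up + sx (nu dq) dq uq - kA dp dq * min up uq + f
        ≤ WW de dp dq + L * s2 := by
  have he1 : ue ≤ 1 := by linarith
  obtain ⟨A, B, hA, hB, hAB, hwAB, rfl, -, cy⟩ := farc_ab F he1 hq1
  have w0 := F.w0.le
  have d0 := F.d0
  have d1 := F.d1
  have e0 := D.e0
  have p0 := D.p0
  have q0 := D.q0
  obtain ⟨y, z, E, hyz⟩ := exists_ez w0 hw1 D.p0 D.p1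
  have y0 := E.y0
  have z0 := E.z0
  have hmax := max_sub_le D.p0 d0
  have hmax2 := sub_max_ge D.p0 d0
  have hup : up ≤ z - y := by
    have := E.eq
    linarith
  have X := xx_nonneg D
  have C := cs_nonneg D
  have C' : 0 ≤ cs dq dp := cs_nonneg D.swap
  have Np := nu_nonneg D.p1
  have Nq := nu_nonneg D.q1
  have K0 := kA_nonneg D.p0 D.p1 D.q0 D.q1
  have K1 : 0 ≤ 2 / 5 * kA dp dq := by linarith
  have hAB1 : A + B ≤ 1 + w := by linarith
  have mp0 : 0 ≤ max up 0 := le_max_right _ _
  have me0 : 0 ≤ max ue 0 := le_max_right _ _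
  have mpz : max up 0 ≤ z := max_le (by linarith) z0
  have se := sx_ny_slot X y0 hyz (by linarith : ue ≤ z - y) ge he1
  have ecs : nu dp - kA dp dq = cs dp dq := by
    simp only [nu, kA, cs]
    ring
  have ecs' : nu dq - kA dp dq = cs dq dp := by
    simp only [nu, kA, cs]
    ring
  rcases le_total up uq with hpq | hpq
  · rw [min_eq_left hpq]
    rw [min_eq_left hpq] at cy
    have e1 := sx_add (nu dp) (kA dp dq) dp up
    rw [ecs] at e1
    rcases le_total uq 0 with hq0 | hq0
    · refine ⟨0, ⟨le_refl _, K1⟩, ?_⟩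
      have t := ct (ue := 0) D (le_refl 0) zero_le_one
      rw [slot_zero] at t
      have h1 := sx_nonpos X (by linarith : ue ≤ 0) ge
      have h2 := sx_nonpos C (by linarith : up ≤ 0) gp
      have h3 := sx_nonpos Nq hq0 gq
      have h4 := vf_le_const w0 hw1 hA hB hwAB hAB1
      linarith
    have sq' := sx_slot (c := nu dq) (d := dq) hq0 hq1
    have sp' := sx_ny_slot C y0 hyz hup gp hp1
    have hm : max ue 0 ≤ max up 0 := max_le_max hep (le_refl 0)
    by_cases hy : B + uq ≤ 1 + dq
    · refine ⟨0, ⟨le_refl _, K1⟩, ?_⟩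
      have m := vf_mono w0 hB hA (by linarith : w ≤ B + A) (by linarith : A ≤ 1 + w - B)
      rw [vf_comm w B A, vf_comm w B (1 + w - B)] at m
      rcases le_total w B with b | b
      · rcases le_total B 1 with c | c
        · have h := cf1 E D hB me0 hm mp0 mpz hq0 hq1 hy b c
          rw [vf1 (by linarith : w ≤ 1 + w - B) b] at m
          linarith
        · have h := cf3 E D hB me0 hm mp0 mpz hq0 hq1 hy c (by linarith)
          rw [vf3 (by linarith : 1 + w - B ≤ w) b] at m
          linarith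
      · have h := cf2 E D hB me0 hm mp0 mpz hq0 hq1 hy b
        rw [vf2 (by linarith : w ≤ 1 + w - B) b] at m
        linarith
    · have ky : uq + w - dF ≤ s2 := by
        rcases cy with h | h
        · exact absurd h hy
        · linarith
      have vS : vf w A B ≤ w * (1 + w - dF) ^ 2 / 4 - w ^ 3 / 4 := by
        have := vf_le w0 hA hB hwAB
        rwa [hAB] at this
      rcases le_total dF (3 / 5) with h6 | h6
      · refine ⟨2 / 5 * kA dp dq, ⟨K1, le_refl _⟩, ?_⟩
        have h := cg1 E D d0 me0 hm mp0 mpz hq0 hq1 h6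
        have hL := mul_le_mul_of_nonneg_left ky K1
        linarith
      · refine ⟨0, ⟨le_refl _, K1⟩, ?_⟩
        have h := cg2 E D d0 me0 hm mp0 mpz hq0 hq1 h6 d1.le
        linarith
  · rw [min_eq_right hpq]
    have e1 := sx_add (nu dq) (kA dp dq) dq uq
    rw [ecs'] at e1
    refine ⟨0, ⟨le_refl _, K1⟩, ?_⟩
    have mq0 : 0 ≤ max uq 0 := le_max_right _ _
    have sp' := sx_ny_slot Np y0 hyz hup gp hp1
    have sq' := sx_ny_slot C' y0 hyz (hpq.trans hup) gq hq1
    have h := ch E D me0 (max_le_max heq (le_refl 0)) mq0 (max_le_max hpq (le_refl 0)) mp0 mpz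
    have h4 := vf_le_one w0 hA hB hwAB hAB1
    linarith

end Pool.Agent.Helper56.TS.T41
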