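import Pool.Agent.Helper36.TS.Frame

/-!
# The type (2,3,4,1): multipliers, the function `WW`, slots and far cells in real variables
-/

set_option autoImplicit false

namespace Pool.Agent.Helper56.TS.T41

open Pool.Agent.Helper84.TS Pool.Agent.Helper36.TS

/-- the multiplier of a row -/
noncomputable def nu (d : ℝ) : ℝ := 7 / 8 - 14 / 25 * d

/-- the multiplier of an adjacent pair -/
noncomputable def kA (a b : ℝ) : ℝ := 1 / 2 - 11 / 25 * (a + b) + 33 / 50 * (a * b)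

/-- the multiplier of an opposite pair -/
noncomputable def kB (a b : ℝ) : ℝ := 3 / 8 - 11 / 25 * (a + b) + 33 / 50 * (a * b)

/-- the coefficient of the lowest class of a column -/
noncomputable def xx (e a b : ℝ) : ℝ := 8 / 25 * e + 11 / 25 * (a + b) - 33 / 50 * (e * (a + b))

/-- the coefficient of the middle class of a column -/
noncomputable def cs (a b : ℝ) : ℝ := 3 / 8 - 3 / 25 * a + 11 / 25 * b - 33 / 50 * (a * b)

/-- the multiple of a slack which a column may use -/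
noncomputable def Lf (e q : ℝ) : ℝ := 3 / 16 - 13 / 100 * e - 31 / 100 * q + 33 / 100 * (e * q)

/-- the bound of a column -/
noncomputable def WW (e a b : ℝ) : ℝ :=
  4716 / 10000 + 1688 / 10000 * e + 1602 / 10000 * (a + b) + 3849 / 10000 * (e * (a + b))
    + 1381 / 10000 * (a * b) + 3976 / 10000 * e ^ 2 - 1303 / 10000 * (a ^ 2 + b ^ 2)
    + 2304 / 10000 * (e * a * b) - 1889 / 10000 * (a * b * (a + b))
    - 1426 / 10000 * (e * (a ^ 2 + b ^ 2)) - 4443 / 10000 * (e ^ 2 * (a + b))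
    - 3783 / 10000 * e ^ 3 + 3253 / 10000 * (a ^ 3 + b ^ 3)

/-- a slot with an entry `u ≥ 0` -/
noncomputable def slot (c d u : ℝ) : ℝ := c * u - (1 - d) * u ^ 2 / 2

/-- a slot with the entry `-y ≤ 0` -/
noncomputable def ny (c d y : ℝ) : ℝ := -c * y - (1 - d) * y ^ 2 / 2 + y ^ 3 / 3

/-- the bound of a slot with an entry `≤ z - y` -/
noncomputable def ey (c d y z : ℝ) : ℝ := c * (z - y) - (1 - d) * y ^ 2 / 2 + y ^ 3 / 3

/-- three heights -/
structure D3 (de dp dq : ℝ) : Prop where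
  e0 : 0 ≤ de
  e1 : de ≤ 3 / 5
  p0 : 0 ≤ dp
  p1 : dp ≤ 3 / 5
  q0 : 0 ≤ dq
  q1 : dq ≤ 3 / 5

/-- `w = de + y - z` -/
structure Ez (w de y z : ℝ) : Prop where
  eq : w = de + y - z
  y0 : 0 ≤ y
  z0 : 0 ≤ z
  w0 : 0 ≤ de + y - z
  y1 : de + y ≤ 13 / 20
  z1 : z ≤ de

theorem D3.swap {de dp dq : ℝ} (h : D3 de dp dq) : D3 de dq dp :=
  ⟨h.e0, h.e1, h.q0, h.q1, h.p0, h.p1⟩

theorem Ez.w_nonneg {w de y z : ℝ} (h : Ez w de y z) : 0 ≤ w := by
  have := h.w0
  have := h.eq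
  linarith

/-- every `w` has the form `de + y - z` with `y = 0` or `z = 0` -/
theorem exists_ez {w de : ℝ} (hw : 0 ≤ w) (hw1 : w ≤ 13 / 20) (hd : 0 ≤ de) (hd1 : de ≤ 3 / 5) :
    ∃ y z, Ez w de y z ∧ (y = 0 ∨ z = 0) := by
  rcases le_total de w with h | h
  · exact ⟨w - de, 0, ⟨by ring, by linarith, le_refl 0, by linarith, by linarith, hd⟩, Or.inr rfl⟩
  · exact ⟨0, de - w, ⟨by ring, le_refl 0, by linarith, by linarith, by linarith, by linarith⟩,
      Or.inl rfl⟩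

/-! ### Signs -/

theorem xx_nonneg {e a b : ℝ} (h : D3 e a b) : 0 ≤ xx e a b := by
  have h1 := mul_le_mul_of_nonneg_right h.e1 (add_nonneg h.p0 h.q0)
  have := h.e0
  have := h.p0
  have := h.q0
  simp only [xx]
  nlinarith

theorem cs_nonneg {e a b : ℝ} (h : D3 e a b) : 0 ≤ cs a b := by
  have h1 := mul_le_mul_of_nonneg_right h.p1 h.q0
  have := h.p0
  have := h.p1
  have := h.q0
  simp only [cs]
  nlinarith

theorem nu_nonneg {d : ℝ} (h : d ≤ 3 / 5) : 0 ≤ nu d := by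
  simp only [nu]
  linarith

theorem Lf_nonneg {e a : ℝ} (h0 : 0 ≤ e) (h1 : e ≤ 3 / 5) (h2 : 0 ≤ a) (h3 : a ≤ 3 / 5) :
    0 ≤ Lf e a := by
  have a1 := mul_nonneg h0 h2
  have a3 := mul_nonneg (sub_nonneg.2 h1) (sub_nonneg.2 h3)
  simp only [Lf]
  nlinarith

theorem kA_nonneg {e a : ℝ} (h0 : 0 ≤ e) (h1 : e ≤ 3 / 5) (h2 : 0 ≤ a) (h3 : a ≤ 3 / 5) :
    0 ≤ kA e a := by
  have a1 := mul_nonneg h0 h2
  have a3 := mul_nonneg (sub_nonneg.2 h1) (sub_nonneg.2 h3)
  simp only [kA]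
  nlinarith

theorem Lf_le_cs {e a b : ℝ} (h : D3 e a b) : Lf e a ≤ cs a b := by
  have h1 := mul_le_mul_of_nonneg_right h.p1 h.q0
  have h2 := mul_le_mul_of_nonneg_right h.e1 h.p0
  have := h.e0
  have := h.p0
  have := h.p1
  have := h.q0
  simp only [cs, Lf]
  nlinarith

theorem Lf_add_le {e a : ℝ} (h0 : 0 ≤ e) (h1 : e ≤ 3 / 5) (h2 : 0 ≤ a) (h3 : a ≤ 3 / 5) :
    Lf e a + 2 / 5 * kA e a ≤ kA e a := by
  have a1 := mul_nonneg h0 h2
  have a3 := mul_nonneg (sub_nonneg.2 h1) (sub_nonneg.2 h3)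
  simp only [Lf, kA]
  nlinarith

theorem Lf_add_Lf (e a : ℝ) : Lf e a + Lf a e = kB e a := by
  simp only [Lf, kB]
  ring

theorem Lf_le_nu {e a : ℝ} (h0 : 0 ≤ e) (h1 : e ≤ 3 / 5) (h3 : a ≤ 3 / 5) :
    Lf e a ≤ nu a := by
  have a1 := mul_nonneg h0 (sub_nonneg.2 h3)
  simp only [Lf, nu]
  nlinarith

theorem kA_comm (a b : ℝ) : kA a b = kA b a := by
  simp only [kA]
  ring

theorem kB_comm (a b : ℝ) : kB a b = kB b a := by
  simp only [kB]
  ring

theorem WW_comm (e a b : ℝ) : WW e a b = WW e b a := by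
  simp only [WW]
  ring

theorem xx_comm (e a b : ℝ) : xx e a b = xx e b a := by
  simp only [xx]
  ring

/-! ### Slots -/

theorem sx_add (c k d u : ℝ) : sx c d u - k * u = sx (c - k) d u := by
  simp only [sx]
  ring

theorem sx_slot {c d u : ℝ} (h0 : 0 ≤ u) (h1 : u ≤ 1) : sx c d u = slot c d u := by
  rw [sx_of_le h1, max_eq_right (by linarith : -u ≤ 0), slot]
  ring

theorem sx_neg {c d u : ℝ} (h0 : u ≤ 0) (h1 : -(1 - d) ≤ u) : sx c d u ≤ c * u := by
  rw [sx_of_le (by linarith), max_eq_left (by linarith : 0 ≤ -u)]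
  nlinarith [mul_nonneg (mul_nonneg (neg_nonneg.2 h0) (neg_nonneg.2 h0))
    (by linarith : 0 ≤ (1 - d) + u), mul_nonneg (neg_nonneg.2 h0) (neg_nonneg.2 h0)]

theorem sx_nonpos {c d u : ℝ} (hc : 0 ≤ c) (h0 : u ≤ 0) (h1 : -(1 - d) ≤ u) : sx c d u ≤ 0 :=
  (sx_neg h0 h1).trans (mul_nonpos_of_nonneg_of_nonpos hc h0)

/-- the slot is increasing for negative entries -/
theorem sx_ny {c d u y : ℝ} (hc : 0 ≤ c) (hy : 0 ≤ y) (h0 : u ≤ -y) (h1 : -(1 - d) ≤ u) :
    sx c d u ≤ ny c d y := by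
  rw [sx_of_le (by linarith), max_eq_left (by linarith : 0 ≤ -u), ny]
  have a0 : 0 ≤ -u - y := by linarith
  have a1 : 0 ≤ (1 - d) + u := by linarith
  have a2 : 0 ≤ (1 - d) - y := by linarith
  have hu : 0 ≤ -u := by linarith
  have b1 := mul_nonneg hc a0
  have b2 := mul_nonneg (mul_nonneg a0 hu) a1
  have b3 := mul_nonneg (mul_nonneg a0 hy) a2
  have b4 := mul_nonneg (mul_nonneg a0 hu) a2
  have b5 := mul_nonneg (mul_nonneg a0 hy) a1
  nlinarith

/-- the slot with an entry `≤ z - y` -/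
theorem sx_ey {c d u y z : ℝ} (hc : 0 ≤ c) (hd : d ≤ 1) (hy : 0 ≤ y) (hz : 0 ≤ z)
    (hyz : y = 0 ∨ z = 0) (h : u ≤ z - y) (h0 : -(1 - d) ≤ u) (h1 : u ≤ 1) :
    sx c d u ≤ ey c d y z := by
  rcases hyz with rfl | rfl
  · rw [ey]
    rcases le_total 0 u with hu | hu
    · rw [sx_slot hu h1, slot]
      have a1 := mul_le_mul_of_nonneg_left h hc
      have a2 := mul_nonneg (by linarith : 0 ≤ 1 - d) (sq_nonneg u)
      nlinarith
    · have a1 := sx_nonpos hc hu h0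
      have a2 := mul_nonneg hc hz
      nlinarith
  · have := sx_ny hc hy (by linarith : u ≤ -y) h0
    rw [ny] at this
    rw [ey]
    linarith

/-- the slot with an entry `≤ z - y`, exact for positive entries -/
theorem sx_ny_slot {c d u y z : ℝ} (hc : 0 ≤ c) (hy : 0 ≤ y) (hyz : y = 0 ∨ z = 0)
    (h : u ≤ z - y) (h0 : -(1 - d) ≤ u) (h1 : u ≤ 1) :
    sx c d u ≤ ny c d y + slot c d (max u 0) := by
  rcases hyz with rfl | rfl
  · have e : ny c d 0 = 0 := by
      rw [ny]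
      ring
    rw [e]
    rcases le_total 0 u with hu | hu
    · rw [max_eq_left hu, sx_slot hu h1]
      linarith
    · rw [max_eq_right hu]
      have := sx_nonpos hc hu h0
      rw [slot]
      linarith
  · have hu : u ≤ 0 := by linarith
    rw [max_eq_right hu]
    have := sx_ny hc hy (by linarith : u ≤ -y) h0
    rw [slot]
    linarith

theorem sx_max {c d u : ℝ} (hc : 0 ≤ c) (h0 : -(1 - d) ≤ u) (h1 : u ≤ 1) :
    sx c d u ≤ slot c d (max u 0) := by
  rcases le_total 0 u with hu | hu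
  · rw [max_eq_left hu, sx_slot hu h1]
  · rw [max_eq_right hu]
    have := sx_nonpos hc hu h0
    rw [slot]
    linarith

/-! ### Far cells -/

/-- the volume of a far cell, `A = 1 - al`, `B = 1 - be` -/
noncomputable def vf (w A B : ℝ) : ℝ :=
  w * A * B - w ^ 3 / 3 + ((max (w - A) 0) ^ 3 + (max (w - B) 0) ^ 3) / 3

theorem vf_comm (w A B : ℝ) : vf w A B = vf w B A := by
  simp only [vf]
  ring

theorem vf1 {w A B : ℝ} (hA : w ≤ A) (hB : w ≤ B) : vf w A B = w * A * B - w ^ 3 / 3 := by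
  rw [vf, max_eq_right (by linarith : w - A ≤ 0), max_eq_right (by linarith : w - B ≤ 0)]
  ring

theorem vf2 {w A B : ℝ} (hA : w ≤ A) (hB : B ≤ w) :
    vf w A B = w * A * B - w ^ 3 / 3 + (w - B) ^ 3 / 3 := by
  rw [vf, max_eq_right (by linarith : w - A ≤ 0), max_eq_left (by linarith : 0 ≤ w - B)]
  ring

theorem vf3 {w A B : ℝ} (hA : A ≤ w) (hB : w ≤ B) :
    vf w A B = w * A * B - w ^ 3 / 3 + (w - A) ^ 3 / 3 := by
  rw [vf, max_eq_left (by linarith : 0 ≤ w - A), max_eq_right (by linarith : w - B ≤ 0)]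
  ring

theorem vf4 {w A B : ℝ} (hA : A ≤ w) (hB : B ≤ w) :
    vf w A B = w * A * B - w ^ 3 / 3 + ((w - A) ^ 3 + (w - B) ^ 3) / 3 := by
  rw [vf, max_eq_left (by linarith : 0 ≤ w - A), max_eq_left (by linarith : 0 ≤ w - B)]

/-- the volume is increasing in `B` -/
theorem vf_mono {w A B B' : ℝ} (hw : 0 ≤ w) (hA : 0 ≤ A) (hB : 0 ≤ B) (hAB : w ≤ A + B)
    (h : B ≤ B') : vf w A B ≤ vf w A B' := by
  have key : (max (w - B) 0) ^ 3 - (max (w - B') 0) ^ 3 ≤ 3 * (w * A * (B' - B)) := by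
    rcases le_total w B with h1 | h1
    · rw [max_eq_right (by linarith : w - B ≤ 0), max_eq_right (by linarith : w - B' ≤ 0)]
      have := mul_nonneg (mul_nonneg hw hA) (sub_nonneg.2 h)
      linarith
    · have a1 : 0 ≤ w - B := by linarith
      have a2 : w - B ≤ A := by linarith
      have a3 : w - B ≤ w := by linarith
      have a4 : (w - B) ^ 2 ≤ w * A := by nlinarith
      have a5 := mul_le_mul_of_nonneg_right a4 (sub_nonneg.2 h)
      rw [max_eq_left a1]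
      rcases le_total w B' with h2 | h2
      · rw [max_eq_right (by linarith : w - B' ≤ 0)]
        have a6 : (w - B) ^ 3 ≤ (w - B) ^ 2 * (B' - B) := by
          have : w - B ≤ B' - B := by linarith
          have := mul_le_mul_of_nonneg_left this (sq_nonneg (w - B))
          nlinarith
        have a7 := mul_nonneg (mul_nonneg hw hA) (sub_nonneg.2 h)
        nlinarith
      · rw [max_eq_left (by linarith : 0 ≤ w - B')]
        have b1 : 0 ≤ w - B' := by linarith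
        have b2 : (w - B) ^ 3 - (w - B') ^ 3 ≤ 3 * ((w - B) ^ 2 * (B' - B)) := by
          have e : 3 * ((w - B) ^ 2 * (B' - B)) - ((w - B) ^ 3 - (w - B') ^ 3)
              = (B' - B) ^ 2 * (3 * (w - B) - (B' - B)) := by ring
          have := mul_nonneg (sq_nonneg (B' - B)) (by linarith : 0 ≤ 3 * (w - B) - (B' - B))
          linarith
        linarith
  simp only [vf]
  nlinarith

/-- the bound by the sum of the two caps -/
theorem vf_le {w A B : ℝ} (hw : 0 ≤ w) (hA : 0 ≤ A) (hB : 0 ≤ B) (hAB : w ≤ A + B) :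
    vf w A B ≤ w * (A + B) ^ 2 / 4 - w ^ 3 / 4 := by
  have sqAB := mul_nonneg hw (sq_nonneg (A - B))
  rcases le_total w A with h1 | h1 <;> rcases le_total w B with h2 | h2
  · rw [vf1 h1 h2]
    have := pow_nonneg hw 3
    nlinarith
  · rw [vf2 h1 h2]
    have a1 : 0 ≤ w - B := by linarith
    have a2 : (w - B) ^ 2 ≤ (A - B) ^ 2 := by nlinarith
    have a3 := mul_le_mul_of_nonneg_left a2 hw
    have a4 : (w - B) ^ 3 / 3 ≤ w * (w - B) ^ 2 / 4 + w ^ 3 / 12 := by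
      nlinarith [mul_nonneg hB (sq_nonneg (w - 2 * B)), mul_nonneg hB hw, mul_nonneg hB (mul_nonneg hw hw),
        mul_nonneg (mul_nonneg hB hB) hw, mul_nonneg hB (mul_nonneg hB hB), mul_nonneg (mul_nonneg hB hw) a1,
        mul_nonneg (mul_nonneg hB hB) a1]
    nlinarith
  · rw [vf3 h1 h2]
    have a1 : 0 ≤ w - A := by linarith
    have a2 : (w - A) ^ 2 ≤ (A - B) ^ 2 := by nlinarith
    have a3 := mul_le_mul_of_nonneg_left a2 hw
    have a4 : (w - A) ^ 3 / 3 ≤ w * (w - A) ^ 2 / 4 + w ^ 3 / 12 := by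
      nlinarith [mul_nonneg hA (sq_nonneg (w - 2 * A)), mul_nonneg hA hw, mul_nonneg hA (mul_nonneg hw hw),
        mul_nonneg (mul_nonneg hA hA) hw, mul_nonneg hA (mul_nonneg hA hA), mul_nonneg (mul_nonneg hA hw) a1,
        mul_nonneg (mul_nonneg hA hA) a1]
    nlinarith
  · rw [vf4 h1 h2]
    -- `s = w - A`, `t = w - B`, `m = s + t ≤ w`
    have hm : (w - A) + (w - B) ≤ w := by linarith
    have hm0 : 0 ≤ (w - A) + (w - B) := by linarith
    have e : w * (A + B) ^ 2 / 4 - w ^ 3 / 4 -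
        (w * A * B - w ^ 3 / 3 + ((w - A) ^ 3 + (w - B) ^ 3) / 3)
        = (A - B) ^ 2 * (w - ((w - A) + (w - B))) / 4
          + (w ^ 3 - ((w - A) + (w - B)) ^ 3) / 12 := by ring
    have b1 := mul_nonneg (sq_nonneg (A - B)) (by linarith : 0 ≤ w - ((w - A) + (w - B)))
    have b2 : ((w - A) + (w - B)) ^ 3 ≤ w ^ 3 := pow_le_pow_left₀ hm0 hm 3
    linarith

end Pool.Agent.Helper56.TS.T41
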