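import Pool.Agent.Helper56.TS.Red

/-!
# Packings by translates of the regular tetrahedron and of its negative

`Loc M`: the local problem for the cuboctahedron `DD = {∑ z_i⁺ < 1}` (half the difference body of
the tetrahedron `z_i ≤ 1/2`) in the coordinates `z_0 + z_1 + z_2 + z_3 = 0`. It gives
`δ_{T*}(tet) ≤ (4/3) / (10/3 - M/2)`.
-/

set_option autoImplicit false

namespace Pool.Agent.Helper56.TS

open MeasureTheory Metric Filter Topology
open Pool.Agent.Helper69.MD Pool.Agent.Helper59.Pack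
open scoped ENNReal Pointwise

/-- the four coordinates, with the sum zero -/
def z4 (z : Fin 3 → ℝ) : Fin 4 → ℝ := ![z 0, z 1, z 2, -(z 0 + z 1 + z 2)]

theorem sum_z4 (z : Fin 3 → ℝ) : ∑ i, max (z4 z i) 0 =
    max (z 0) 0 + max (z 1) 0 + max (z 2) 0 + max (-(z 0 + z 1 + z 2)) 0 := by
  rw [Fin.sum_univ_four]
  rfl

/-- half the difference body of the tetrahedron `z_i ≤ 1/2` -/
def DD : Set (Fin 3 → ℝ) := {z | ∑ i, max (z4 z i) 0 < 1}

theorem mem_DD {z : Fin 3 → ℝ} : z ∈ DD ↔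
    max (z 0) 0 + max (z 1) 0 + max (z 2) 0 + max (-(z 0 + z 1 + z 2)) 0 < 1 := by
  rw [← sum_z4]
  rfl

theorem DD_open : IsOpen DD := by
  have : DD = {z : Fin 3 → ℝ | max (z 0) 0 + max (z 1) 0 + max (z 2) 0 +
      max (-(z 0 + z 1 + z 2)) 0 < 1} := by
    ext z
    exact mem_DD
  rw [this]
  exact isOpen_lt (by fun_prop) (by fun_prop)

theorem DD_neg {z : Fin 3 → ℝ} : -z ∈ DD ↔ z ∈ DD := by
  rw [mem_DD, mem_DD]
  have h : ∀ t : ℝ, max (-t) 0 = max t 0 - t := by
    intro t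
    rcases le_total 0 t with h | h
    · rw [max_eq_left h, max_eq_right (by linarith)]; ring
    · rw [max_eq_right h, max_eq_left (by linarith)]; ring
  have h3 : max (-(-z 0 + -z 1 + -z 2)) 0 =
      max (-(z 0 + z 1 + z 2)) 0 - -(z 0 + z 1 + z 2) := by
    rw [← h]
    congr 1
    ring
  simp only [Pi.neg_apply]
  rw [h3, h, h, h]
  constructor <;> intro h <;> linarith

/-- the local problem -/
def Loc (M : ℝ) : Prop :=
  ∀ Y : Finset (Fin 3 → ℝ), (∀ y ∈ Y, ∃ i, 1 ≤ z4 y i) →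
    (∀ y ∈ Y, ∀ y' ∈ Y, y ≠ y' → 2 ≤ ∑ i, max (z4 (y - y') i) 0) →
    ∑ y ∈ Y, volume (DD ∩ (y +ᵥ DD)) ≤ ENNReal.ofReal M

/-- the coordinates -/
noncomputable def zc (x : Fin 3 → ℝ) : Fin 3 → ℝ :=
  ![(-x 0 - x 1 - x 2) / 2, (-x 0 + x 1 + x 2) / 2, (x 0 - x 1 + x 2) / 2]

noncomputable def Azc : Matrix (Fin 3) (Fin 3) ℝ :=
  !![-1 / 2, -1 / 2, -1 / 2; -1 / 2, 1 / 2, 1 / 2; 1 / 2, -1 / 2, 1 / 2]

theorem Azc_eq (x : Fin 3 → ℝ) : Azc.mulVec x + 0 = zc x := by
  ext i
  fin_cases i <;>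
    simp [Azc, zc, dotProduct, Fin.sum_univ_three] <;> ring

theorem Azc_det : Azc.det = -1 / 2 := by
  rw [Azc, Matrix.det_fin_three]
  simp
  norm_num

theorem zc_sub (x y : Fin 3 → ℝ) : zc (x - y) = zc x - zc y := by
  ext i
  fin_cases i <;> simp [zc] <;> ring

theorem zc_inj {x y : Fin 3 → ℝ} (h : zc x = zc y) : x = y := by
  have h0 := congrFun h 0
  have h1 := congrFun h 1
  have h2 := congrFun h 2
  simp only [zc, Matrix.cons_val_zero, Matrix.cons_val_one, Matrix.cons_val] at h0 h1 h2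
  ext i
  fin_cases i
  · change x 0 = y 0
    linarith
  · change x 1 = y 1
    linarith
  · change x 2 = y 2
    linarith

theorem cubo_iff (x : Fin 3 → ℝ) : x ∈ cubo ↔ zc x ∈ DD := by
  rw [mem_DD]
  have e0 : zc x 0 = (-x 0 - x 1 - x 2) / 2 := rfl
  have e1 : zc x 1 = (-x 0 + x 1 + x 2) / 2 := rfl
  have e2 : zc x 2 = (x 0 - x 1 + x 2) / 2 := rfl
  have e3 : -(zc x 0 + zc x 1 + zc x 2) = (x 0 + x 1 - x 2) / 2 := by rw [e0, e1, e2]; ring
  rw [e3, e0, e1, e2]
  constructor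
  · rintro ⟨h0, h1, h2, h3⟩
    have a0 := abs_lt.1 h0
    have a1 := abs_lt.1 h1
    have a2 := abs_lt.1 h2
    have b0 := neg_abs_le (x 0)
    have b1 := neg_abs_le (x 1)
    have b2 := neg_abs_le (x 2)
    have c0 := le_abs_self (x 0)
    have c1 := le_abs_self (x 1)
    have c2 := le_abs_self (x 2)
    rcases max_cases ((-x 0 - x 1 - x 2) / 2) 0 with ⟨d0, -⟩ | ⟨d0, -⟩ <;>
      rcases max_cases ((-x 0 + x 1 + x 2) / 2) 0 with ⟨d1, -⟩ | ⟨d1, -⟩ <;>
      rcases max_cases ((x 0 - x 1 + x 2) / 2) 0 with ⟨d2, -⟩ | ⟨d2, -⟩ <;>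
      rcases max_cases ((x 0 + x 1 - x 2) / 2) 0 with ⟨d3, -⟩ | ⟨d3, -⟩ <;>
      rw [d0, d1, d2, d3] <;> linarith
  · intro h
    have a0 := le_max_left ((-x 0 - x 1 - x 2) / 2) 0
    have a1 := le_max_left ((-x 0 + x 1 + x 2) / 2) 0
    have a2 := le_max_left ((x 0 - x 1 + x 2) / 2) 0
    have a3 := le_max_left ((x 0 + x 1 - x 2) / 2) 0
    have b0 := le_max_right ((-x 0 - x 1 - x 2) / 2) 0
    have b1 := le_max_right ((-x 0 + x 1 + x 2) / 2) 0
    have b2 := le_max_right ((x 0 - x 1 + x 2) / 2) 0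
    have b3 := le_max_right ((x 0 + x 1 - x 2) / 2) 0
    refine ⟨abs_lt.2 ⟨by linarith, by linarith⟩, abs_lt.2 ⟨by linarith, by linarith⟩,
      abs_lt.2 ⟨by linarith, by linarith⟩, ?_⟩
    rcases abs_cases (x 0) with ⟨c0, -⟩ | ⟨c0, -⟩ <;>
      rcases abs_cases (x 1) with ⟨c1, -⟩ | ⟨c1, -⟩ <;>
      rcases abs_cases (x 2) with ⟨c2, -⟩ | ⟨c2, -⟩ <;>
      rw [c0, c1, c2] <;> linarith

theorem cuboE_iff (x : E3) : x ∈ cuboE ↔ zc x.ofLp ∈ DD := cubo_iff _

theorem vol_inter_cubo (y : E3) :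
    volume (cuboE ∩ (y +ᵥ -cuboE)) = ENNReal.ofReal 2 * volume (DD ∩ (zc y.ofLp +ᵥ DD)) := by
  have hm : MeasurableSet (DD ∩ (zc y.ofLp +ᵥ DD)) :=
    DD_open.measurableSet.inter (DD_open.measurableSet.const_vadd _)
  have h1 : cuboE ∩ (y +ᵥ -cuboE) =
      (WithLp.ofLp : E3 → (Fin 3 → ℝ)) ⁻¹' (zc ⁻¹' (DD ∩ (zc y.ofLp +ᵥ DD))) := by
    ext x
    simp only [Set.mem_inter_iff, Set.mem_preimage, Set.mem_vadd_set_iff_neg_vadd_mem,
      vadd_eq_add, Set.mem_neg]
    rw [cuboE_iff, cuboE_iff]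
    refine and_congr_right fun _ => ?_
    have e : zc (WithLp.ofLp (-(-y + x))) = -(-zc y.ofLp + zc x.ofLp) := by
      have : WithLp.ofLp (-(-y + x)) = y.ofLp - x.ofLp := by
        ext i
        simp
        ring
      rw [this, zc_sub]
      abel
    rw [e, DD_neg]
  have h2 : zc ⁻¹' (DD ∩ (zc y.ofLp +ᵥ DD)) =
      {x : Fin 3 → ℝ | Azc.mulVec x + 0 ∈ DD ∩ (zc y.ofLp +ᵥ DD)} := by
    ext x
    simp only [Set.mem_preimage, Set.mem_ofPred_eq, Azc_eq]
  have hmz : Measurable zc := by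
    refine measurable_pi_iff.2 fun i => ?_
    fin_cases i
    · exact (by fun_prop : Measurable fun x : Fin 3 → ℝ => (-x 0 - x 1 - x 2) / 2)
    · exact (by fun_prop : Measurable fun x : Fin 3 → ℝ => (-x 0 + x 1 + x 2) / 2)
    · exact (by fun_prop : Measurable fun x : Fin 3 → ℝ => (x 0 - x 1 + x 2) / 2)
  rw [h1, (PiLp.volume_preserving_ofLp (Fin 3)).measure_preimage
    (hmz hm).nullMeasurableSet, h2, Pool.Agent.Helper84.Tet.vol_preimage_matrix _ _
    (by rw [Azc_det]; norm_num), Azc_det]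
  congr 2
  norm_num

theorem mem_tetO_of {y : E3} (h : ∀ i, z4 (zc y.ofLp) i < 1) : (1 / 2 : ℝ) • y ∈ tetO := by
  have h0 := h 0
  have h1 := h 1
  have h2 := h 2
  have h3 := h 3
  change (-y 0 - y 1 - y 2) / 2 < 1 at h0
  change (-y 0 + y 1 + y 2) / 2 < 1 at h1
  change (y 0 - y 1 + y 2) / 2 < 1 at h2
  change -((-y 0 - y 1 - y 2) / 2 + (-y 0 + y 1 + y 2) / 2 + (y 0 - y 1 + y 2) / 2) < 1 at h3
  refine ⟨?_, ?_, ?_, ?_⟩ <;> simp only [PiLp.smul_apply, smul_eq_mul] <;> linarith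

/-- **The density of packings by translates of the regular tetrahedron and of its negative.** -/
theorem tstar_tet_le {M : ℝ} (hM0 : 0 ≤ M) (hM : M < 20 / 3) (h : Loc M) :
    deltaTstar tet ≤ ENNReal.ofReal ((4 / 3) / (10 / 3 - M / 2)) := by
  classical
  have hcm : MeasurableSet cuboE :=
    (PiLp.volume_preserving_ofLp (Fin 3)).measurable measurableSet_cubo
  have hlow : ENNReal.ofReal (20 / 3) ≤ volume cuboE := by rw [vol_cuboE]; exact vol_cubo_ge
  have hCρ : cuboE ⊆ closedBall 0 3 := by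
    intro x hx
    obtain ⟨a, ha, b, hb, rfl⟩ := cuboE_diff x hx
    have h1 := tet_bounded (tetO_subset ha)
    have h2 := tet_bounded (tetO_subset hb)
    rw [mem_closedBall_zero_iff] at h1 h2 ⊢
    rw [norm_smul]
    have h3 := norm_sub_le a b
    norm_num
    linarith
  have hsep : ∀ u w : E3, Disjoint (interior (u +ᵥ tet)) (interior (w +ᵥ tet)) →
      Disjoint (u +ᵥ cuboE) (w +ᵥ cuboE) := by
    intro u w h1
    rw [Set.disjoint_left]
    rintro _ ⟨x, hx, rfl⟩ ⟨y, hy, hxy⟩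
    obtain ⟨a, ha, b, hb, rfl⟩ := cuboE_diff x hx
    obtain ⟨a', ha', b', hb', rfl⟩ := cuboE_diff y hy
    simp only [vadd_eq_add] at hxy
    rw [Set.disjoint_left] at h1
    have m1 : (1 / 2 : ℝ) • a + (1 / 2 : ℝ) • b' ∈ tetO :=
      tetO_convex ha hb' (by norm_num) (by norm_num) (by norm_num)
    have m2 : (1 / 2 : ℝ) • a' + (1 / 2 : ℝ) • b ∈ tetO :=
      tetO_convex ha' hb (by norm_num) (by norm_num) (by norm_num)
    refine h1 (a := u + ((1 / 2 : ℝ) • a + (1 / 2 : ℝ) • b')) ?_ ?_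
    · rw [mem_interior_vadd, add_sub_cancel_left]
      exact tetO_subset_interior m1
    · rw [mem_interior_vadd]
      have e : u + ((1 / 2 : ℝ) • a + (1 / 2 : ℝ) • b') - w =
          (1 / 2 : ℝ) • a' + (1 / 2 : ℝ) • b := by
        have h2 : w - u = (1 / 2 : ℝ) • (a - b) - (1 / 2 : ℝ) • (a' - b') := by
          rw [← sub_eq_zero]
          have := sub_eq_zero.2 hxy
          rw [← this]
          abel
        have h3 : u + ((1 / 2 : ℝ) • a + (1 / 2 : ℝ) • b') - w =
            ((1 / 2 : ℝ) • a + (1 / 2 : ℝ) • b') - (w - u) := by abel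
        rw [h3, h2]
        module
      rw [e]
      exact tetO_subset_interior m2
  refine (tstar_le_of_local (K := tet) (C := cuboE) (ρ := 3) (M := 2 * M) (c := 20 / 3)
    tet_bounded hCρ hcm hsep hlow (by linarith) (by linarith) ?_).trans ?_
  · intro Y hY
    have hinj : ∀ y y' : E3, zc y.ofLp = zc y'.ofLp → y = y' := fun y y' e =>
      WithLp.ofLp_injective 2 (zc_inj e)
    have h1 := h (Y.image fun y => zc y.ofLp) (by
      intro v hv
      obtain ⟨y, hy, rfl⟩ := Finset.mem_image.1 hv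
      by_contra hcon
      push Not at hcon
      have m := mem_tetO_of hcon
      have h2 := hY.one y hy
      rw [Set.disjoint_left] at h2
      refine h2 (tetO_subset_interior m) ?_
      rw [mem_int_neg_vadd]
      have : y - (1 / 2 : ℝ) • y = (1 / 2 : ℝ) • y := by module
      rw [this]
      exact tetO_subset_interior m) (by
      intro v hv v' hv' hne
      obtain ⟨y, hy, rfl⟩ := Finset.mem_image.1 hv
      obtain ⟨y', hy', rfl⟩ := Finset.mem_image.1 hv'
      have hne' : y ≠ y' := fun e => hne (by rw [e])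
      by_contra hcon
      push Not at hcon
      have h3 : (1 / 2 : ℝ) • (y - y') ∈ cuboE := by
        rw [cuboE_iff, mem_DD]
        rw [sum_z4] at hcon
        have e : ∀ i, zc (WithLp.ofLp ((1 / 2 : ℝ) • (y - y'))) i =
            (zc y.ofLp - zc y'.ofLp) i / 2 := by
          intro i
          rw [← zc_sub]
          fin_cases i <;> simp [zc] <;> ring
        rw [e 0, e 1, e 2]
        have hh : ∀ t : ℝ, max (t / 2) 0 = max t 0 / 2 := by
          intro t
          rcases le_total 0 t with h | h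
          · rw [max_eq_left h, max_eq_left (by linarith)]
          · rw [max_eq_right h, max_eq_right (by linarith)]; ring
        rw [hh, hh, hh, show ∀ a b c : ℝ, -(a / 2 + b / 2 + c / 2) = -(a + b + c) / 2 by
          intro a b c; ring, hh]
        linarith
      obtain ⟨a, ha, b, hb, hab⟩ := cuboE_diff _ h3
      have h2 := hY.two y hy y' hy' hne'
      rw [Set.disjoint_left] at h2
      have h4 : y - y' = a - b := by
        have := congrArg (fun v : E3 => (2 : ℝ) • v) hab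
        simp only [smul_smul] at this
        norm_num at this
        exact this
      refine h2 (a := y - a) ?_ ?_
      · rw [mem_int_neg_vadd, sub_sub_cancel]
        exact tetO_subset_interior ha
      · rw [mem_int_neg_vadd]
        have : y' - (y - a) = b := by
          have : y' - (y - a) = a - (y - y') := by abel
          rw [this, h4]
          abel
        rw [this]
        exact tetO_subset_interior hb)
    rw [Finset.sum_image (fun a _ b _ e => hinj a b e)] at h1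
    simp only [vol_inter_cubo]
    rw [← Finset.mul_sum, ENNReal.ofReal_mul (by norm_num)]
    gcongr
  · refine (ENNReal.div_le_div_right vol_tet_le _).trans ?_
    rw [← ENNReal.ofReal_div_of_pos (by linarith)]
    refine ENNReal.ofReal_le_ofReal (le_of_eq ?_)
    have h1 : (20 / 3 - 2 * M / 2 : ℝ) ≠ 0 := by linarith
    have h2 : (10 / 3 - M / 2 : ℝ) ≠ 0 := by linarith
    rw [div_eq_div_iff h1 h2]
    ring

end Pool.Agent.Helper56.TS
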