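import Pool.Agent.Helper59.Pack.Chain

/-!
# Packings by translates of `K` and `-K`: reduction of the density to a local problem

If the overlap of a set `C` (whose translates are disjoint whenever those of `int K` are) with
the sets `y - C` of any local configuration is at most `M`, then
`δ_{T*}(K) ≤ vol K / (vol C - M / 2)`.
-/

set_option autoImplicit false

namespace Pool.Agent.Helper56.TS

open MeasureTheory Metric Filter Topology
open Pool.Agent.Helper69.MD Pool.Agent.Helper59.Pack
open scoped ENNReal Pointwise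

/-- the sets `y - K`, `y ∈ Y`, and `K` form a packing -/
structure LConf (K : Set E3) (Y : Finset E3) : Prop where
  one : ∀ y ∈ Y, Disjoint (interior K) (interior (y +ᵥ -K))
  two : ∀ y ∈ Y, ∀ y' ∈ Y, y ≠ y' → Disjoint (interior (y +ᵥ -K)) (interior (y' +ᵥ -K))

theorem mem_int_neg_vadd {u z : E3} {K : Set E3} :
    z ∈ interior (u +ᵥ -K) ↔ u - z ∈ interior K := by
  rw [mem_interior_vadd, mem_interior_neg, neg_sub]

/-- the configuration seen from a body of the first family -/
theorem lconf_left {K S R : Set E3} (h : IsTstarPacking K S R) {u : E3} (hu : u ∈ S)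
    {G : Finset E3} (hG : ∀ w ∈ G, w ∈ R) : LConf K (G.image fun w => w - u) := by
  classical
  refine ⟨?_, ?_⟩
  · intro y hy
    obtain ⟨w, hw, rfl⟩ := Finset.mem_image.1 hy
    have h1 := h.2.2 u hu w (hG w hw)
    rw [Set.disjoint_left] at h1 ⊢
    intro z hz hz'
    rw [mem_int_neg_vadd] at hz'
    refine h1 (a := u + z) ?_ ?_
    · rw [mem_interior_vadd, add_sub_cancel_left]
      exact hz
    · rw [mem_int_neg_vadd]
      rw [show w - (u + z) = w - u - z by abel]
      exact hz'
  · intro y hy y' hy' hne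
    obtain ⟨w, hw, rfl⟩ := Finset.mem_image.1 hy
    obtain ⟨w', hw', rfl⟩ := Finset.mem_image.1 hy'
    have h1 := h.2.1 w (hG w hw) w' (hG w' hw') (fun e => hne (by rw [e]))
    rw [Set.disjoint_left] at h1 ⊢
    intro z hz hz'
    rw [mem_int_neg_vadd] at hz hz'
    refine h1 (a := u + z) ?_ ?_
    · rw [mem_int_neg_vadd, show w - (u + z) = w - u - z by abel]
      exact hz
    · rw [mem_int_neg_vadd, show w' - (u + z) = w' - u - z by abel]
      exact hz'

/-- the configuration seen from a body of the second family -/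
theorem lconf_right {K S R : Set E3} (h : IsTstarPacking K S R) {w : E3} (hw : w ∈ R)
    {F : Finset E3} (hF : ∀ u ∈ F, u ∈ S) : LConf K (F.image fun u => w - u) := by
  classical
  refine ⟨?_, ?_⟩
  · intro y hy
    obtain ⟨u, hu, rfl⟩ := Finset.mem_image.1 hy
    have h1 := h.2.2 u (hF u hu) w hw
    rw [Set.disjoint_left] at h1 ⊢
    intro z hz hz'
    rw [mem_int_neg_vadd] at hz'
    refine h1 (a := u + z) ?_ ?_
    · rw [mem_interior_vadd, add_sub_cancel_left]
      exact hz
    · rw [mem_int_neg_vadd, show w - (u + z) = w - u - z by abel]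
      exact hz'
  · intro y hy y' hy' hne
    obtain ⟨u, hu, rfl⟩ := Finset.mem_image.1 hy
    obtain ⟨u', hu', rfl⟩ := Finset.mem_image.1 hy'
    have h1 := h.1 u (hF u hu) u' (hF u' hu') (fun e => hne (by rw [e]))
    rw [Set.disjoint_left] at h1 ⊢
    intro z hz hz'
    rw [mem_int_neg_vadd] at hz hz'
    refine h1 (a := w - z) ?_ ?_
    · rw [mem_interior_vadd, show w - z - u = w - u - z by abel]
      exact hz
    · rw [mem_interior_vadd, show w - z - u' = w - u' - z by abel]
      exact hz'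

theorem vol_inter (C : Set E3) (u w : E3) :
    volume ((u +ᵥ C) ∩ (w +ᵥ -C)) = volume (C ∩ ((w - u) +ᵥ -C)) := by
  have h : (u +ᵥ C) ∩ (w +ᵥ -C) = u +ᵥ (C ∩ ((w - u) +ᵥ -C)) := by
    rw [Set.vadd_set_inter, vadd_vadd, show u + (w - u) = w by abel]
  rw [h, measure_vadd]

section

variable {K C : Set E3} {ρ M c : ℝ}

/-- finitely many bodies of both families -/
theorem finite_bound (hCρ : C ⊆ closedBall 0 ρ) (hCm : MeasurableSet C)
    (hsep : ∀ u w : E3, Disjoint (interior (u +ᵥ K)) (interior (w +ᵥ K)) →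
      Disjoint (u +ᵥ C) (w +ᵥ C))
    (hc : ENNReal.ofReal c ≤ volume C) (hM0 : 0 ≤ M)
    (hloc : ∀ Y : Finset E3, LConf K Y →
      ∑ y ∈ Y, volume (C ∩ (y +ᵥ -C)) ≤ ENNReal.ofReal M)
    {S R : Set E3} (h : IsTstarPacking K S R) {F G : Finset E3} (hF : ∀ u ∈ F, u ∈ S)
    (hG : ∀ w ∈ G, w ∈ R) {s : ℝ} (hFs : ∀ u ∈ F, ‖u‖ ≤ s) (hGs : ∀ w ∈ G, ‖w‖ ≤ s) :
    ((F.card : ℝ) + G.card) * (c - M / 2) ≤ (volume (closedBall (0 : E3) (s + ρ))).toReal := by
  classical
  set U : Set E3 := ⋃ u ∈ F, (u +ᵥ C) with hU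
  set V : Set E3 := ⋃ w ∈ G, (w +ᵥ -C) with hV
  have hsep' : ∀ u w : E3, Disjoint (interior (u +ᵥ -K)) (interior (w +ᵥ -K)) →
      Disjoint (u +ᵥ -C) (w +ᵥ -C) := by
    intro u w h1
    have h2 := hsep (-u) (-w) (by
      rw [Set.disjoint_left] at h1 ⊢
      intro z hz hz'
      rw [mem_interior_vadd] at hz hz'
      refine h1 (a := -z) ?_ ?_
      · rw [mem_int_neg_vadd, show u - -z = z - -u by abel]
        exact hz
      · rw [mem_int_neg_vadd, show w - -z = z - -w by abel]
        exact hz')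
    rw [Set.disjoint_left] at h2 ⊢
    rintro z ⟨x, hx, rfl⟩ ⟨y, hy, hxy⟩
    simp only [vadd_eq_add] at hxy
    refine h2 (a := -(u + x)) ⟨-x, hx, ?_⟩ ⟨-y, hy, ?_⟩
    · simp only [vadd_eq_add]
      abel
    · simp only [vadd_eq_add]
      rw [← hxy]
      abel
  have hUvol : volume U = F.card * volume C := by
    rw [hU, measure_biUnion_finset]
    · simp only [measure_vadd, Finset.sum_const, nsmul_eq_mul]
    · intro u hu w hw huw
      exact hsep u w (h.1 u (hF u hu) w (hF w hw) huw)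
    · intro u _
      exact hCm.const_vadd u
  have hCneg : MeasurableSet (-C) := hCm.neg
  have hVvol : volume V = G.card * volume C := by
    rw [hV, measure_biUnion_finset]
    · simp only [measure_vadd, Measure.measure_neg, Finset.sum_const, nsmul_eq_mul]
    · intro u hu w hw huw
      exact hsep' u w (h.2.1 u (hG u hu) w (hG w hw) huw)
    · intro u _
      exact hCneg.const_vadd u
  have hUm : MeasurableSet U := Finset.measurableSet_biUnion _ fun u _ => hCm.const_vadd u
  have hVm : MeasurableSet V := Finset.measurableSet_biUnion _ fun u _ => hCneg.const_vadd u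
  -- the intersection
  have hsub : U ∩ V ⊆ ⋃ u ∈ F, ⋃ w ∈ G, ((u +ᵥ C) ∩ (w +ᵥ -C)) := by
    rintro z ⟨hz, hz'⟩
    rw [hU, Set.mem_iUnion₂] at hz
    rw [hV, Set.mem_iUnion₂] at hz'
    obtain ⟨u, hu, h1⟩ := hz
    obtain ⟨w, hw, h2⟩ := hz'
    exact Set.mem_iUnion₂.2 ⟨u, hu, Set.mem_iUnion₂.2 ⟨w, hw, h1, h2⟩⟩
  have hdouble : volume (U ∩ V) ≤ ∑ u ∈ F, ∑ w ∈ G, volume ((u +ᵥ C) ∩ (w +ᵥ -C)) := by
    refine (measure_mono hsub).trans ((measure_biUnion_finset_le _ _).trans ?_)
    exact Finset.sum_le_sum fun u _ => measure_biUnion_finset_le _ _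
  have hleft : volume (U ∩ V) ≤ F.card * ENNReal.ofReal M := by
    refine hdouble.trans ?_
    rw [← nsmul_eq_mul, ← Finset.sum_const]
    refine Finset.sum_le_sum fun u hu => ?_
    have h1 := hloc _ (lconf_left h (hF u hu) hG)
    rw [Finset.sum_image (fun a _ b _ e => sub_left_injective e)] at h1
    simp only [vol_inter]
    exact h1
  have hright : volume (U ∩ V) ≤ G.card * ENNReal.ofReal M := by
    refine hdouble.trans ?_
    rw [Finset.sum_comm, ← nsmul_eq_mul, ← Finset.sum_const]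
    refine Finset.sum_le_sum fun w hw => ?_
    have h1 := hloc _ (lconf_right h (hG w hw) hF)
    rw [Finset.sum_image (fun a _ b _ e => sub_right_injective e)] at h1
    simp only [vol_inter]
    exact h1
  -- everything is in the ball
  have hball : U ∪ V ⊆ closedBall (0 : E3) (s + ρ) := by
    rintro z (hz | hz)
    · rw [hU, Set.mem_iUnion₂] at hz
      obtain ⟨u, hu, x, hx, rfl⟩ := hz
      have hx2 := hCρ hx
      rw [mem_closedBall_zero_iff] at hx2 ⊢
      exact (norm_add_le _ _).trans (add_le_add (hFs u hu) hx2)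
    · rw [hV, Set.mem_iUnion₂] at hz
      obtain ⟨w, hw, x, hx, rfl⟩ := hz
      have hx2 := hCρ hx
      rw [mem_closedBall_zero_iff, norm_neg] at hx2
      rw [mem_closedBall_zero_iff]
      exact (norm_add_le _ _).trans (add_le_add (hGs w hw) hx2)
  have hCt : volume C ≠ ⊤ := ((measure_mono hCρ).trans_lt measure_closedBall_lt_top).ne
  have hUt : volume U ≠ ⊤ := by
    rw [hUvol]
    exact ENNReal.mul_ne_top (ENNReal.natCast_ne_top _) hCt
  have hVt : volume V ≠ ⊤ := by
    rw [hVvol]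
    exact ENNReal.mul_ne_top (ENNReal.natCast_ne_top _) hCt
  have hIt : volume (U ∩ V) ≠ ⊤ := ((measure_mono Set.inter_subset_left).trans_lt hUt.lt_top).ne
  have hBt : volume (closedBall (0 : E3) (s + ρ)) ≠ ⊤ := measure_closedBall_lt_top.ne
  have e1 := measure_union_add_inter (μ := volume) U hVm
  have e2 : volume (U ∪ V) ≤ volume (closedBall (0 : E3) (s + ρ)) := measure_mono hball
  have r0 : c ≤ (volume C).toReal := by
    rcases le_or_gt c 0 with h0 | h0
    · exact h0.trans ENNReal.toReal_nonneg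
    · have := ENNReal.toReal_mono hCt hc
      rwa [ENNReal.toReal_ofReal h0.le] at this
  have r1 : (volume U).toReal = F.card * (volume C).toReal := by
    rw [hUvol, ENNReal.toReal_mul, ENNReal.toReal_natCast]
  have r2 : (volume V).toReal = G.card * (volume C).toReal := by
    rw [hVvol, ENNReal.toReal_mul, ENNReal.toReal_natCast]
  have r3 : (volume (U ∪ V)).toReal + (volume (U ∩ V)).toReal =
      (volume U).toReal + (volume V).toReal := by
    have h1 : volume (U ∪ V) ≠ ⊤ := (e2.trans_lt hBt.lt_top).ne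
    rw [← ENNReal.toReal_add h1 hIt, ← ENNReal.toReal_add hUt hVt, e1]
  have r4 : (volume (U ∪ V)).toReal ≤ (volume (closedBall (0 : E3) (s + ρ))).toReal :=
    ENNReal.toReal_mono hBt e2
  have r5 : (volume (U ∩ V)).toReal ≤ F.card * M := by
    have := ENNReal.toReal_mono (ENNReal.mul_ne_top (ENNReal.natCast_ne_top _)
      ENNReal.ofReal_ne_top) hleft
    rwa [ENNReal.toReal_mul, ENNReal.toReal_natCast, ENNReal.toReal_ofReal hM0] at this
  have r6 : (volume (U ∩ V)).toReal ≤ G.card * M := by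
    have := ENNReal.toReal_mono (ENNReal.mul_ne_top (ENNReal.natCast_ne_top _)
      ENNReal.ofReal_ne_top) hright
    rwa [ENNReal.toReal_mul, ENNReal.toReal_natCast, ENNReal.toReal_ofReal hM0] at this
  have r7 : ((F.card : ℝ) + G.card) * c ≤ ((F.card : ℝ) + G.card) * (volume C).toReal :=
    mul_le_mul_of_nonneg_left r0 (by positivity)
  nlinarith

theorem count_bound (hCρ : C ⊆ closedBall 0 ρ) (hCm : MeasurableSet C)
    (hsep : ∀ u w : E3, Disjoint (interior (u +ᵥ K)) (interior (w +ᵥ K)) →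
      Disjoint (u +ᵥ C) (w +ᵥ C))
    (hc : ENNReal.ofReal c ≤ volume C) (hM0 : 0 ≤ M) (hM : M < 2 * c)
    (hloc : ∀ Y : Finset E3, LConf K Y →
      ∑ y ∈ Y, volume (C ∩ (y +ᵥ -C)) ≤ ENNReal.ofReal M)
    {S R : Set E3} (h : IsTstarPacking K S R) (s : ℝ) :
    ((∑' u : S, (if ‖(u : E3)‖ ≤ s then (1 : ℝ≥0∞) else 0)) +
      ∑' w : R, (if ‖(w : E3)‖ ≤ s then (1 : ℝ≥0∞) else 0)) * ENNReal.ofReal (c - M / 2) ≤
      volume (closedBall (0 : E3) (s + ρ)) := by
  classical
  rw [add_mul, ← ENNReal.tsum_mul_right, ← ENNReal.tsum_mul_right, ENNReal.tsum_eq_iSup_sum,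
    ENNReal.tsum_eq_iSup_sum]
  refine ENNReal.iSup_add_iSup_le fun F G => ?_
  set F' : Finset E3 := (F.filter fun u : S => ‖(u : E3)‖ ≤ s).image Subtype.val with hF'
  set G' : Finset E3 := (G.filter fun w : R => ‖(w : E3)‖ ≤ s).image Subtype.val with hG'
  have key : ∀ (X : Set E3) (F : Finset X), (∑ u ∈ F, (if ‖(u : E3)‖ ≤ s then (1 : ℝ≥0∞) else 0) *
      ENNReal.ofReal (c - M / 2)) =
      ((F.filter fun u : X => ‖(u : E3)‖ ≤ s).image Subtype.val).card *
        ENNReal.ofReal (c - M / 2) := by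
    intro X F
    rw [← Finset.sum_mul, Finset.card_image_of_injective _ Subtype.val_injective,
      Finset.sum_ite, Finset.sum_const_zero, add_zero, Finset.sum_const, nsmul_eq_mul, mul_one]
  rw [key, key, ← hF', ← hG', ← add_mul]
  have h1 := finite_bound (s := s) hCρ hCm hsep hc hM0 hloc h (F := F') (G := G')
    (fun u hu => by
      obtain ⟨x, -, rfl⟩ := Finset.mem_image.1 hu
      exact x.2)
    (fun u hu => by
      obtain ⟨x, -, rfl⟩ := Finset.mem_image.1 hu
      exact x.2)
    (fun u hu => by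
      obtain ⟨x, hx, rfl⟩ := Finset.mem_image.1 hu
      exact (Finset.mem_filter.1 hx).2)
    (fun u hu => by
      obtain ⟨x, hx, rfl⟩ := Finset.mem_image.1 hu
      exact (Finset.mem_filter.1 hx).2)
  have hBt : volume (closedBall (0 : E3) (s + ρ)) ≠ ⊤ := measure_closedBall_lt_top.ne
  have h2 := ENNReal.ofReal_le_ofReal h1
  rw [ENNReal.ofReal_toReal hBt, ENNReal.ofReal_mul (by positivity),
    ENNReal.ofReal_add (by positivity) (by positivity), ENNReal.ofReal_natCast,
    ENNReal.ofReal_natCast] at h2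
  exact h2

/-- **Reduction to a local problem.** -/
theorem tstar_le_of_local (hK : K ⊆ closedBall 0 ρ) (hCρ : C ⊆ closedBall 0 ρ)
    (hCm : MeasurableSet C)
    (hsep : ∀ u w : E3, Disjoint (interior (u +ᵥ K)) (interior (w +ᵥ K)) →
      Disjoint (u +ᵥ C) (w +ᵥ C))
    (hc : ENNReal.ofReal c ≤ volume C) (hM0 : 0 ≤ M) (hM : M < 2 * c)
    (hloc : ∀ Y : Finset E3, LConf K Y →
      ∑ y ∈ Y, volume (C ∩ (y +ᵥ -C)) ≤ ENNReal.ofReal M) :
    deltaTstar K ≤ volume K / ENNReal.ofReal (c - M / 2) := by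
  unfold deltaTstar
  refine iSup_le fun S => iSup_le fun R => iSup_le fun h => ?_
  have hx0 : ENNReal.ofReal (c - M / 2) ≠ 0 := (ENNReal.ofReal_pos.2 (by linarith)).ne'
  have hxt : ENNReal.ofReal (c - M / 2) ≠ ⊤ := ENNReal.ofReal_ne_top
  have one : ∀ (r : ℝ) (A : Set E3), A ⊆ closedBall 0 ρ → ∀ X : Set E3,
      (∑' u : X, volume (((u : E3) +ᵥ A) ∩ closedBall (0 : E3) r)) ≤
        (∑' u : X, (if ‖(u : E3)‖ ≤ r + ρ then (1 : ℝ≥0∞) else 0)) * volume A := by
    intro r A hA X
    rw [← ENNReal.tsum_mul_right]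
    refine ENNReal.tsum_le_tsum (fun u => ?_)
    by_cases h : ‖(u : E3)‖ ≤ r + ρ
    · rw [if_pos h, one_mul]
      calc _ ≤ volume ((u : E3) +ᵥ A) := measure_mono Set.inter_subset_left
        _ = volume A := measure_vadd volume (u : E3) A
    · rw [if_neg h, zero_mul]
      have : ((u : E3) +ᵥ A) ∩ closedBall (0 : E3) r = ∅ := by
        rw [Set.eq_empty_iff_forall_notMem]
        rintro x ⟨⟨y, hy, rfl⟩, hx⟩
        apply h
        have hy2 := hA hy
        rw [mem_closedBall_zero_iff] at hy2 hx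
        have : (u : E3) = ((u : E3) + y) - y := by abel
        rw [this]
        calc ‖((u : E3) + y) - y‖ ≤ ‖(u : E3) + y‖ + ‖y‖ := norm_sub_le _ _
          _ ≤ r + ρ := add_le_add hx hy2
      rw [this, measure_empty]
  have hKn : -K ⊆ closedBall (0 : E3) ρ := by
    intro x hx
    have := hK hx
    rwa [mem_closedBall_zero_iff, norm_neg, ← mem_closedBall_zero_iff] at this
  have hup : ∀ r : ℝ, (∑' u : S, volume (((u : E3) +ᵥ K) ∩ closedBall (0 : E3) r) +
      ∑' w : R, volume (((w : E3) +ᵥ -K) ∩ closedBall (0 : E3) r)) ≤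
      volume (closedBall (0 : E3) (r + ρ + ρ)) / ENNReal.ofReal (c - M / 2) * volume K := by
    intro r
    have h1 := one r K hK S
    have h2 := one r (-K) hKn R
    rw [Measure.measure_neg] at h2
    refine (add_le_add h1 h2).trans ?_
    rw [← add_mul]
    gcongr
    rw [ENNReal.le_div_iff_mul_le (Or.inl hx0) (Or.inl hxt)]
    exact count_bound hCρ hCm hsep hc hM0 hM hloc h (r + ρ)
  unfold tstarDensity
  calc limsup (fun r : ℝ => (∑' u : S, volume (((u : E3) +ᵥ K) ∩ closedBall (0 : E3) r) +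
        ∑' w : R, volume (((w : E3) +ᵥ -K) ∩ closedBall (0 : E3) r)) /
        volume (closedBall (0 : E3) r)) atTop
      ≤ limsup (fun r : ℝ => ENNReal.ofReal (((r + (ρ + ρ)) / r) ^ 3) *
          (volume K / ENNReal.ofReal (c - M / 2))) atTop := by
        refine limsup_le_limsup ?_
        filter_upwards [eventually_gt_atTop (0 : ℝ), eventually_gt_atTop (-(ρ + ρ))] with r hr0 hr1
        rw [← ratio_eq hr0 (by linarith)]
        gcongr
        rw [← add_assoc]
        exact hup r
    _ = volume K / ENNReal.ofReal (c - M / 2) := (ratio_tendsto (ρ + ρ) _).limsup_eq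

end

end Pool.Agent.Helper56.TS
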