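import Pool.Agent.Helper56.TS.Col41
import Pool.Agent.Helper36.TS.FrameG

/-!
# The type (2,3,4,1)
-/

set_option autoImplicit false

namespace Pool.Agent.Helper56.TS.T41

open Pool.Agent.Helper84.TS Pool.Agent.Helper36.TS Pool.Agent.Helper23.TS

section

variable {A : Fin 4 → Fin 4 → Option (Fin 4 → ℝ)} {P : Fin 4 → Fin 4 → ℝ}

/-- the row of a main cell -/
theorem main_row (h : OF A) (hP : ∀ i, A i i = some (P i)) {i m : Fin 4} (hm : m ≠ i) :
    -P i m ≤ 1 ∧ -(1 - (P i i - 1)) ≤ -P i m := by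
  refine ⟨h.main i (P i) (hP i) m hm, ?_⟩
  obtain ⟨k, l, hn⟩ := exists_rest2 hm.symm
  have := cell_lin (h.cell i i (P i) (hP i)) hn
  linarith

theorem main_d (h : OF A) (hP : ∀ i, A i i = some (P i)) (i : Fin 4) : 0 ≤ P i i - 1 := by
  have := (h.cell i i (P i) (hP i)).one
  linarith

/-- **The column `m` with the classes `e` (the lowest), `a`, `b`** -/
theorem column (h : OF A) (hP : ∀ i, A i i = some (P i)) (hd : ∀ i, P i i - 1 ≤ 3 / 5)
    (hw : ∀ i m F, m ≠ i → A i m = some F → 2 + F m ≤ 13 / 20)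
    (hcol : ∀ m a b, a ≠ m → b ≠ m → a ≠ b → A a m = none ∨ A b m = none)
    {m e a b : Fin 4} (hn : [m, e, a, b].Nodup) (l1 : -P e m ≤ -P a m) (l2 : -P e m ≤ -P b m) :
    ∃ La Lb Lc : ℝ, (0 ≤ La ∧ La ≤ Lf (P e e - 1) (P a a - 1)) ∧
      (0 ≤ Lb ∧ Lb ≤ Lf (P e e - 1) (P b b - 1)) ∧
      (0 ≤ Lc ∧ Lc ≤ 2 / 5 * kA (P a a - 1) (P b b - 1)) ∧
      sx (nu (P e e - 1)) (P e e - 1) (-P e m) + sx (nu (P a a - 1)) (P a a - 1) (-P a m)
        + sx (nu (P b b - 1)) (P b b - 1) (-P b m)
        - kA (P e e - 1) (P a a - 1) * min (-P e m) (-P a m)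
        - kB (P e e - 1) (P b b - 1) * min (-P e m) (-P b m)
        - kA (P a a - 1) (P b b - 1) * min (-P a m) (-P b m)
        + rst A (fun t => t) e m + rst A (fun t => t) a m + rst A (fun t => t) b m
      ≤ WW (P e e - 1) (P a a - 1) (P b b - 1) + La * slk P e a m b + Lb * slk P e b m a
        + Lc * slk P a b m e := by
  have n1 : e ≠ m ∧ a ≠ m ∧ b ≠ m := nodup_ne hn
  have n2 : [e, m, a, b].Nodup := swap_nodup hn
  have n3 : a ≠ e ∧ b ≠ e := (nodup_ne n2).2
  have n4 : [a, m, e, b].Nodup := by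
    clear * - hn; revert hn; revert m e a b; decide
  have n5 : b ≠ a := (nodup_ne n4).2.2
  have n6 : [b, m, e, a].Nodup := by
    clear * - hn; revert hn; revert m e a b; decide
  have n7 : [e, m, b, a].Nodup := by
    clear * - hn; revert hn; revert m e a b; decide
  have re := main_row h hP n1.1.symm
  have ra := main_row h hP n1.2.1.symm
  have rb := main_row h hP n1.2.2.symm
  have D : D3 (P e e - 1) (P a a - 1) (P b b - 1) :=
    ⟨main_d h hP e, hd e, main_d h hP a, hd a, main_d h hP b, hd b⟩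
  have hs : ∀ i, A i ((fun t : Fin 4 => t) i) = some (P i) := hP
  have ra0 : (0 : ℝ) ≤ Lf (P e e - 1) (P a a - 1) := Lf_nonneg D.e0 D.e1 D.p0 D.p1
  have rb0 : (0 : ℝ) ≤ Lf (P e e - 1) (P b b - 1) := Lf_nonneg D.e0 D.e1 D.q0 D.q1
  have rc0 : (0 : ℝ) ≤ 2 / 5 * kA (P a a - 1) (P b b - 1) := by
    have := kA_nonneg D.p0 D.p1 D.q0 D.q1
    linarith
  have ex : nu (P e e - 1) - kA (P e e - 1) (P a a - 1) - kB (P e e - 1) (P b b - 1)
      = xx (P e e - 1) (P a a - 1) (P b b - 1) := by
    simp only [nu, kA, kB, xx]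
    ring
  have eV := sx_add (nu (P e e - 1) - kA (P e e - 1) (P a a - 1)) (kB (P e e - 1) (P b b - 1))
    (P e e - 1) (-P e m)
  have eV' := sx_add (nu (P e e - 1)) (kA (P e e - 1) (P a a - 1)) (P e e - 1) (-P e m)
  rw [ex] at eV
  have ea : nu (P a a - 1) - kA (P a a - 1) (P b b - 1) = cs (P a a - 1) (P b b - 1) := by
    simp only [nu, kA, cs]
    ring
  have eb : nu (P b b - 1) - kA (P a a - 1) (P b b - 1) = cs (P b b - 1) (P a a - 1) := by
    simp only [nu, kA, cs]
    ring
  have eA := sx_add (nu (P a a - 1)) (kA (P a a - 1) (P b b - 1)) (P a a - 1) (-P a m)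
  rw [ea] at eA
  have eB := sx_add (nu (P b b - 1)) (kA (P a a - 1) (P b b - 1)) (P b b - 1) (-P b m)
  rw [eb] at eB
  rw [min_eq_left l1, min_eq_left l2]
  rcases hFe : A e m with _ | F
  · rw [rst_none _ hFe]
    rcases hFa : A a m with _ | F
    · rw [rst_none _ hFa]
      rcases hFb : A b m with _ | F
      · -- no far cell
        rw [rst_none _ hFb]
        refine ⟨0, 0, 0, ⟨le_refl _, ra0⟩, ⟨le_refl _, rb0⟩, ⟨le_refl _, rc0⟩, ?_⟩
        rcases le_total (-P a m) (-P b m) with hab | hab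
        · rw [min_eq_left hab]
          have := col_none D re.1 ra.1 rb.1 re.2 ra.2 rb.2
          linarith
        · rw [min_eq_right hab]
          have := col_none D.swap re.1 rb.1 ra.1 re.2 rb.2 ra.2
          rw [xx_comm, WW_comm] at this
          linarith
      · -- far class `b`
        rw [rst_some (s := fun t => t) (i := b) n1.2.2 hFb]
        have hF := farC_rst h hs hFb n6
        have own := own_rst h hs hFb n1.2.2.symm rfl
        obtain ⟨L, hL, key⟩ := col_high D.swap hF (hw b m F n1.2.2.symm hFb) own l2 l1 rb.1 ra.1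
          re.2 rb.2 ra.2
        rw [xx_comm, WW_comm, kA_comm (P b b - 1), min_comm (-P b m), slk_comm P b a] at key
        rw [kA_comm (P b b - 1)] at hL
        refine ⟨0, 0, L, ⟨le_refl _, ra0⟩, ⟨le_refl _, rb0⟩, hL, ?_⟩
        linarith
    · -- far class `a`
      have hFb : A b m = none := by
        rcases hcol m a b n1.2.1 n1.2.2 n5.symm with h0 | h0
        · rw [hFa] at h0
          cases h0
        · exact h0
      rw [rst_none _ hFb, rst_some (s := fun t => t) (i := a) n1.2.1 hFa]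
      have hF := farC_rst h hs hFa n4
      have own := own_rst h hs hFa n1.2.1.symm rfl
      obtain ⟨L, hL, key⟩ := col_high D hF (hw a m F n1.2.1.symm hFa) own l1 l2 ra.1 rb.1
        re.2 ra.2 rb.2
      refine ⟨0, 0, L, ⟨le_refl _, ra0⟩, ⟨le_refl _, rb0⟩, hL, ?_⟩
      linarith
  · -- far class `e`
    have hFa : A a m = none := by
      rcases hcol m e a n1.1 n1.2.1 n3.1.symm with h0 | h0
      · rw [hFe] at h0
        cases h0
      · exact h0
    have hFb : A b m = none := by
      rcases hcol m e b n1.1 n1.2.2 n3.2.symm with h0 | h0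
      · rw [hFe] at h0
        cases h0
      · exact h0
    rw [rst_none _ hFa, rst_none _ hFb, rst_some (s := fun t => t) (i := e) n1.1 hFe]
    have own := own_rst h hs hFe n1.1.symm rfl
    have w1 := hw e m F n1.1.symm hFe
    rcases le_total (-P a m) (-P b m) with hab | hab
    · rw [min_eq_left hab]
      have hF := farC_rst h hs hFe n2
      obtain ⟨Lp, Lq, hLp, hLq, key⟩ := col_low D hF w1 own l1 hab rb.1 re.2 ra.2 rb.2
      refine ⟨Lp, Lq, 0, hLp, hLq, ⟨le_refl _, rc0⟩, ?_⟩
      linarith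
    · rw [min_eq_right hab]
      have hF := farC_rst h hs hFe n7
      obtain ⟨Lp, Lq, hLp, hLq, key⟩ := col_low D.swap hF w1 own l2 hab ra.1 re.2 rb.2 ra.2
      rw [xx_comm, WW_comm] at key
      refine ⟨Lq, Lp, 0, hLq, hLp, ⟨le_refl _, rc0⟩, ?_⟩
      linarith

/-- the frame with explicit numbers -/
theorem frame12 (h : OF A) (hP : ∀ i, A i i = some (P i)) {i j k l : Fin 4}
    (hn : [i, j, k, l].Nodup) (n : Fin 4 → ℝ) {kij kik kil kjk kjl kkl Wi Wj Wk Wl : ℝ}
    {i1 i2 i3 j1 j2 j3 k1 k2 k3 l1 l2 l3 : ℝ}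
    (ci : sx (n j) (P j j - 1) (-P j i) + sx (n k) (P k k - 1) (-P k i)
        + sx (n l) (P l l - 1) (-P l i) - kjk * min (-P j i) (-P k i) - kjl * min (-P j i) (-P l i)
        - kkl * min (-P k i) (-P l i) + rst A (fun t => t) j i + rst A (fun t => t) k i
        + rst A (fun t => t) l i
        ≤ Wi + i1 * slk P j k i l + i2 * slk P j l i k + i3 * slk P k l i j)
    (cj : sx (n i) (P i i - 1) (-P i j) + sx (n k) (P k k - 1) (-P k j)
        + sx (n l) (P l l - 1) (-P l j) - kik * min (-P i j) (-P k j) - kil * min (-P i j) (-P l j)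
        - kkl * min (-P k j) (-P l j) + rst A (fun t => t) i j + rst A (fun t => t) k j
        + rst A (fun t => t) l j
        ≤ Wj + j1 * slk P i k j l + j2 * slk P i l j k + j3 * slk P k l i j)
    (ck : sx (n i) (P i i - 1) (-P i k) + sx (n j) (P j j - 1) (-P j k)
        + sx (n l) (P l l - 1) (-P l k) - kij * min (-P i k) (-P j k) - kil * min (-P i k) (-P l k)
        - kjl * min (-P j k) (-P l k) + rst A (fun t => t) i k + rst A (fun t => t) j k
        + rst A (fun t => t) l k
        ≤ Wk + k1 * slk P i j k l + k2 * slk P i l j k + k3 * slk P j l i k)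
    (cl : sx (n i) (P i i - 1) (-P i l) + sx (n j) (P j j - 1) (-P j l)
        + sx (n k) (P k k - 1) (-P k l) - kij * min (-P i l) (-P j l) - kik * min (-P i l) (-P k l)
        - kjk * min (-P j l) (-P k l) + rst A (fun t => t) i l + rst A (fun t => t) j l
        + rst A (fun t => t) k l
        ≤ Wl + l1 * slk P i j k l + l2 * slk P i k j l + l3 * slk P j k i l)
    (lij : k1 + l1 ≤ kij) (lik : j1 + l2 ≤ kik) (lil : j2 + k2 ≤ kil) (ljk : i1 + l3 ≤ kjk)
    (ljl : i2 + k3 ≤ kjl) (lkl : i3 + j3 ≤ kkl) :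
    ∑ t, VV A t ≤ rowc (n i) (P i i - 1) + rowc (n j) (P j j - 1) + rowc (n k) (P k k - 1)
      + rowc (n l) (P l l - 1)
      + kij * ((P i i - 1) + (P j j - 1)) + kik * ((P i i - 1) + (P k k - 1))
      + kil * ((P i i - 1) + (P l l - 1)) + kjk * ((P j j - 1) + (P k k - 1))
      + kjl * ((P j j - 1) + (P l l - 1)) + kkl * ((P k k - 1) + (P l l - 1))
      + (Wi + Wj + Wk + Wl) := by
  have hs : ∀ i, A i ((fun t : Fin 4 => t) i) = some (P i) := hP
  have nij : j ≠ i ∧ k ≠ i ∧ l ≠ i := nodup_ne hn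
  have njk : k ≠ j ∧ l ≠ j := by
    clear * - hn; revert hn; revert i j k l; decide
  have nkl : l ≠ k := by
    clear * - hn; revert hn; revert i j k l; decide
  have a1 := nij.1
  have a2 := nij.2.1
  have a3 := nij.2.2
  have a4 := njk.1
  have a5 := njk.2
  have b1 := a1.symm
  have b2 := a2.symm
  have b4 := a4.symm
  have key := frameG h hs hn (fun _ => 1) n
    (fun t => if t = i then Wi else if t = j then Wj else if t = k then Wk else Wl)
    (fun a b => if a = i then (if b = j then kij else if b = k then kik else kil)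
      else if a = j then (if b = k then kjk else kjl) else kkl)
    (fun m a b => if m = i then (if a = j then (if b = k then i1 else i2) else i3)
      else if m = j then (if a = i then (if b = k then j1 else j2) else j3)
      else if m = k then (if a = i then (if b = j then k1 else k2) else k3)
      else (if a = i then (if b = j then l1 else l2) else l3))
  simp only [colg, if_true, if_neg a1, if_neg a2, if_neg a3, if_neg a4, if_neg a5, if_neg nkl,
    if_neg b1, if_neg b2, if_neg b4, one_mul] at key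
  have r : ∀ t, rst A (fun t => t) t t = 0 := fun t => rst_row A rfl
  rw [r i, r j, r k, r l] at key
  have := key ci cj ck cl lij lik lil ljk ljl lkl
  linarith

/-- **The type (2,3,4,1).** All four classes have a main cell of height `d ≤ 3/5`, all far cells
have `w ≤ 13/20`, no column holds two far cells, and the lowest classes of the columns `i`, `j`, `k`,
`l` are `j`, `k`, `l`, `i`. -/
theorem type_2341 (h : OF A) (hP : ∀ i, A i i = some (P i)) (hd : ∀ i, P i i - 1 ≤ 3 / 5)
    (hw : ∀ i m F, m ≠ i → A i m = some F → 2 + F m ≤ 13 / 20)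
    (hcol : ∀ m a b, a ≠ m → b ≠ m → a ≠ b → A a m = none ∨ A b m = none)
    {i j k l : Fin 4} (hn : [i, j, k, l].Nodup)
    (li : -P j i ≤ -P k i ∧ -P j i ≤ -P l i) (lj : -P k j ≤ -P l j ∧ -P k j ≤ -P i j)
    (lk : -P l k ≤ -P i k ∧ -P l k ≤ -P j k) (ll : -P i l ≤ -P j l ∧ -P i l ≤ -P k l) :
    ∑ t, VV A t ≤ 613 / 200 := by
  have nj : [j, k, l, i].Nodup := by
    clear * - hn; revert hn; revert i j k l; decide
  have nk : [k, l, i, j].Nodup := by
    clear * - hn; revert hn; revert i j k l; decide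
  have nl : [l, i, j, k].Nodup := by
    clear * - hn; revert hn; revert i j k l; decide
  obtain ⟨i1, i2, i3, hi1, hi2, hi3, ki⟩ := column h hP hd hw hcol hn li.1 li.2
  obtain ⟨j1, j2, j3, hj1, hj2, hj3, kj⟩ := column h hP hd hw hcol nj lj.1 lj.2
  obtain ⟨k1, k2, k3, hk1, hk2, hk3, kk⟩ := column h hP hd hw hcol nk lk.1 lk.2
  obtain ⟨l1, l2, l3, hl1, hl2, hl3, kl⟩ := column h hP hd hw hcol nl ll.1 ll.2
  have di := main_d h hP i
  have dj := main_d h hP j
  have dk := main_d h hP k
  have dl := main_d h hP l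
  have ei := hd i
  have ej := hd j
  have ek := hd k
  have el := hd l
  have tot := ctot di ei dj ej dk ek dl el
  have sij := Lf_add_le di ei dj ej
  have sjk := Lf_add_le dj ej dk ek
  have skl := Lf_add_le dk ek dl el
  have sli := Lf_add_le dl el di ei
  have oik := Lf_add_Lf (P i i - 1) (P k k - 1)
  have ojl := Lf_add_Lf (P j j - 1) (P l l - 1)
  rw [kA_comm (P l l - 1)] at sli
  rw [kA_comm (P l l - 1)] at hj3
  -- column `j`: e = k, a = l, b = i
  rw [min_comm (-P k j) (-P i j), min_comm (-P l j) (-P i j), kB_comm (P k k - 1),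
    kA_comm (P l l - 1), slk_comm P k i, slk_comm P l i, slk_comm' P k l j i] at kj
  -- column `k`: e = l, a = i, b = j
  rw [min_comm (-P l k) (-P i k), min_comm (-P l k) (-P j k), kA_comm (P l l - 1),
    kB_comm (P l l - 1), slk_comm P l i, slk_comm P l j, slk_comm' P i l k j,
    slk_comm' P j l k i] at kk
  -- column `l`: e = i, a = j, b = k
  rw [slk_comm' P i j l k, slk_comm' P i k l j, slk_comm' P j k l i] at kl
  have key := frame12 h hP hn (fun t => nu (P t t - 1)) (kij := kA (P i i - 1) (P j j - 1))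
    (kik := kB (P i i - 1) (P k k - 1)) (kil := kA (P i i - 1) (P l l - 1))
    (kjk := kA (P j j - 1) (P k k - 1)) (kjl := kB (P j j - 1) (P l l - 1))
    (kkl := kA (P k k - 1) (P l l - 1)) (Wi := WW (P j j - 1) (P k k - 1) (P l l - 1))
    (Wj := WW (P k k - 1) (P l l - 1) (P i i - 1)) (Wk := WW (P l l - 1) (P i i - 1) (P j j - 1))
    (Wl := WW (P i i - 1) (P j j - 1) (P k k - 1)) (i1 := i1) (i2 := i2) (i3 := i3) (j1 := j2)
    (j2 := j3) (j3 := j1) (k1 := k3) (k2 := k1) (k3 := k2) (l1 := l1) (l2 := l2) (l3 := l3)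
    ki (by linarith only [kj]) (by linarith only [kk]) (by linarith only [kl])
    (by linarith [hk3.2, hl1.2]) (by linarith [hj2.2, hl2.2]) (by linarith [hj3.2, hk1.2])
    (by linarith [hi1.2, hl3.2]) (by linarith [hi2.2, hk2.2]) (by linarith [hi3.2, hj1.2])
  linarith only [key, tot]

end

end Pool.Agent.Helper56.TS.T41
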