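import Pool.Agent.Helper53.TS.Main
import Pool.Agent.Helper56.TS.Half

/-!
# The volumes `|DD ∩ (y + DD)|`
-/

set_option autoImplicit false

namespace Pool.Agent.Helper56.TS

open MeasureTheory
open Pool.Agent.Helper53.TS Pool.Agent.Helper84.TS
open scoped ENNReal Pointwise

theorem vol_lin (A : Matrix (Fin 3) (Fin 3) ℝ) (hA : |(A.det)⁻¹| = 1)
    (L : (Fin 3 → ℝ) → (Fin 3 → ℝ)) (hL : ∀ x, A.mulVec x = L x) (S : Set (Fin 3 → ℝ)) :
    volume (L ⁻¹' S) = volume S := by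
  have h0 : A.det ≠ 0 := by
    intro h
    rw [h] at hA
    simp at hA
  have h := Pool.Agent.Helper84.Tet.vol_preimage_matrix A 0 h0 S
  rw [hA, ENNReal.ofReal_one, one_mul] at h
  rw [← h]
  congr 1
  ext x
  simp only [Set.mem_preimage, Set.mem_ofPred_eq, add_zero, hL]

theorem RR_swap12 (a b c : ℝ) : volume (RR b a c) = volume (RR a b c) := by
  rw [← vol_lin !![0, 1, 0; 1, 0, 0; 0, 0, 1] (by simp [Matrix.det_fin_three])
    (fun x => ![x 1, x 0, x 2]) (fun x => by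
      ext i
      fin_cases i <;> simp [dotProduct, Fin.sum_univ_three]) (RR a b c)]
  congr 1
  ext x
  change (max (x 0) 0 + max (x 1) 0 + max (x 2) 0 < 1 ∧
    max (b - x 0) 0 + max (a - x 1) 0 + max (c - x 2) 0 < 1) ↔
    (max (x 1) 0 + max (x 0) 0 + max (x 2) 0 < 1 ∧
    max (a - x 1) 0 + max (b - x 0) 0 + max (c - x 2) 0 < 1)
  constructor <;> rintro ⟨h1, h2⟩ <;> constructor <;> linarith

theorem RR_swap23 (a b c : ℝ) : volume (RR a c b) = volume (RR a b c) := by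
  rw [← vol_lin !![1, 0, 0; 0, 0, 1; 0, 1, 0] (by simp [Matrix.det_fin_three])
    (fun x => ![x 0, x 2, x 1]) (fun x => by
      ext i
      fin_cases i <;> simp [dotProduct, Fin.sum_univ_three]) (RR a b c)]
  congr 1
  ext x
  change (max (x 0) 0 + max (x 1) 0 + max (x 2) 0 < 1 ∧
    max (a - x 0) 0 + max (c - x 1) 0 + max (b - x 2) 0 < 1) ↔
    (max (x 0) 0 + max (x 2) 0 + max (x 1) 0 < 1 ∧
    max (a - x 0) 0 + max (b - x 2) 0 + max (c - x 1) 0 < 1)
  constructor <;> rintro ⟨h1, h2⟩ <;> constructor <;> linarith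

theorem ff_swap12 (d a b c : ℝ) : ff d b a c = ff d a b c := by
  unfold ff
  ring

theorem ff_swap23 (d a b c : ℝ) : ff d a c b = ff d a b c := by
  unfold ff
  ring

/-- the statement for main cells, `c` may be negative -/
def MainLe : Prop := ∀ a b c : ℝ, 0 ≤ a → 0 ≤ b → a ≤ 1 → b ≤ 1 → c ≤ 1 → 1 ≤ a + b + c →
  max a 0 + max b 0 + max c 0 < 2 → volume (RR a b c) ≤ ENNReal.ofReal (ff (a + b + c - 1) a b c)

theorem vol_RR (hM : MainLe) {a b c : ℝ} (h1 : 1 ≤ a + b + c)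
    (h2 : max a 0 + max b 0 + max c 0 < 2) :
    volume (RR a b c) ≤ ENNReal.ofReal (ff (a + b + c - 1) a b c) := by
  by_cases hc : 1 ≤ c
  · refine far_le hc ?_
    rw [max_eq_left (by linarith : 0 ≤ c)] at h2
    linarith
  by_cases hb : 1 ≤ b
  · rw [← RR_swap23, ← ff_swap23, show a + b + c - 1 = a + c + b - 1 by ring]
    refine far_le hb ?_
    rw [max_eq_left (by linarith : 0 ≤ b)] at h2
    linarith
  by_cases ha : 1 ≤ a
  · rw [← RR_swap23, ← RR_swap12, ← RR_swap23, ← ff_swap23, ← ff_swap12, ← ff_swap23,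
      show a + b + c - 1 = c + b + a - 1 by ring]
    refine far_le ha ?_
    rw [max_eq_left (by linarith : 0 ≤ a)] at h2
    linarith
  push Not at ha hb hc
  by_cases ha0 : 0 ≤ a
  · by_cases hb0 : 0 ≤ b
    · exact hM a b c ha0 hb0 ha.le hb.le hc.le h1 h2
    · push Not at hb0
      rw [← RR_swap23, ← ff_swap23, show a + b + c - 1 = a + c + b - 1 by ring]
      exact hM a c b ha0 (by linarith) ha.le hc.le hb.le (by linarith) (by linarith)
  · push Not at ha0
    rw [← RR_swap23, ← RR_swap12, ← RR_swap23, ← ff_swap23, ← ff_swap12, ← ff_swap23,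
      show a + b + c - 1 = c + b + a - 1 by ring]
    exact hM c b a (by linarith) (by linarith) hc.le hb.le ha.le (by linarith) (by linarith)

theorem mem_vadd_DD {y z : Fin 3 → ℝ} : z ∈ y +ᵥ DD ↔ z - y ∈ DD := by
  rw [Set.mem_vadd_set_iff_neg_vadd_mem, vadd_eq_add, neg_add_eq_sub]

/-- the cell in the coordinates off its class -/
theorem vol_le_RR {a b c : ℝ} {y : Fin 3 → ℝ} (A : Matrix (Fin 3) (Fin 3) ℝ)
    (hA : |(A.det)⁻¹| = 1) (L : (Fin 3 → ℝ) → (Fin 3 → ℝ)) (hL : ∀ x, A.mulVec x = L x)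
    (h : ∀ z, z ∈ DD → z - y ∈ DD → L z ∈ RR a b c) :
    volume (DD ∩ (y +ᵥ DD)) ≤ volume (RR a b c) := by
  rw [← vol_lin A hA L hL (RR a b c)]
  refine measure_mono ?_
  rintro z ⟨h1, h2⟩
  rw [mem_vadd_DD] at h2
  exact h z h1 h2

theorem max_neg_add (t : ℝ) : max (-t) 0 = max t 0 - t := by
  rcases le_total 0 t with h | h
  · rw [max_eq_left h, max_eq_right (by linarith)]; ring
  · rw [max_eq_right h, max_eq_left (by linarith)]; ring

/-- **The volume of a cell.** -/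
theorem vol_cell_of_main (hM : MainLe) (i : Fin 4) (y : Fin 3 → ℝ) (hy : IsCell i (z4 y)) :
    volume (DD ∩ (y +ᵥ DD)) ≤ ENNReal.ofReal (fcl i (z4 y)) := by
  obtain ⟨-, h1, h2⟩ := hy
  rw [sum_z4] at h2
  have n0 := max_neg_add (y 0)
  have n1 := max_neg_add (y 1)
  have n2 := max_neg_add (y 2)
  have n3 := max_neg_add (-(y 0 + y 1 + y 2))
  have key : ∀ z : Fin 3 → ℝ, z ∈ DD → z - y ∈ DD →
      (max (-z 0) 0 + max (-z 1) 0 + max (-z 2) 0 + max (- -(z 0 + z 1 + z 2)) 0 < 1) ∧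
      (max (z 0 - y 0) 0 + max (z 1 - y 1) 0 + max (z 2 - y 2) 0 +
        max (-(z 0 + z 1 + z 2) - -(y 0 + y 1 + y 2)) 0 < 1) := by
    intro z hz hz'
    have hz2 := DD_neg.2 hz
    rw [mem_DD] at hz2 hz'
    simp only [Pi.neg_apply, Pi.sub_apply] at hz2 hz'
    rw [show -(-z 0 + -z 1 + -z 2) = - -(z 0 + z 1 + z 2) by ring] at hz2
    rw [show -(z 0 - y 0 + (z 1 - y 1) + (z 2 - y 2)) =
      -(z 0 + z 1 + z 2) - -(y 0 + y 1 + y 2) by ring] at hz'
    exact ⟨hz2, hz'⟩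
  fin_cases i
  · change volume (DD ∩ (y +ᵥ DD)) ≤
      ENNReal.ofReal (ff (y 0 - 1) (-y 1) (-y 2) (- -(y 0 + y 1 + y 2)))
    change 1 ≤ y 0 at h1
    have m := max_eq_left (by linarith : 0 ≤ y 0)
    rw [show y 0 - 1 = -y 1 + -y 2 + - -(y 0 + y 1 + y 2) - 1 by ring]
    refine le_trans ?_ (vol_RR hM (by linarith) (by linarith))
    refine vol_le_RR !![0, -1, 0; 0, 0, -1; 1, 1, 1] (by simp [Matrix.det_fin_three])
      (fun x => ![-x 1, -x 2, - -(x 0 + x 1 + x 2)]) (fun x => by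
        ext i
        fin_cases i <;> simp [dotProduct, Fin.sum_univ_three]) ?_
    intro z hz hz'
    obtain ⟨k1, k2⟩ := key z hz hz'
    have e0 := le_max_right (-z 0) 0
    have e1 := le_max_right (z 0 - y 0) 0
    constructor
    · change max (-z 1) 0 + max (-z 2) 0 + max (- -(z 0 + z 1 + z 2)) 0 < 1
      linarith
    · change max (-y 1 - -z 1) 0 + max (-y 2 - -z 2) 0 +
        max (- -(y 0 + y 1 + y 2) - - -(z 0 + z 1 + z 2)) 0 < 1
      rw [show -y 1 - -z 1 = z 1 - y 1 by ring, show -y 2 - -z 2 = z 2 - y 2 by ring,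
        show - -(y 0 + y 1 + y 2) - - -(z 0 + z 1 + z 2) =
          -(z 0 + z 1 + z 2) - -(y 0 + y 1 + y 2) by ring]
      linarith
  · change volume (DD ∩ (y +ᵥ DD)) ≤
      ENNReal.ofReal (ff (y 1 - 1) (-y 0) (-y 2) (- -(y 0 + y 1 + y 2)))
    change 1 ≤ y 1 at h1
    have m := max_eq_left (by linarith : 0 ≤ y 1)
    rw [show y 1 - 1 = -y 0 + -y 2 + - -(y 0 + y 1 + y 2) - 1 by ring]
    refine le_trans ?_ (vol_RR hM (by linarith) (by linarith))
    refine vol_le_RR !![-1, 0, 0; 0, 0, -1; 1, 1, 1] (by simp [Matrix.det_fin_three])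
      (fun x => ![-x 0, -x 2, - -(x 0 + x 1 + x 2)]) (fun x => by
        ext i
        fin_cases i <;> simp [dotProduct, Fin.sum_univ_three]) ?_
    intro z hz hz'
    obtain ⟨k1, k2⟩ := key z hz hz'
    have e0 := le_max_right (-z 1) 0
    have e1 := le_max_right (z 1 - y 1) 0
    constructor
    · change max (-z 0) 0 + max (-z 2) 0 + max (- -(z 0 + z 1 + z 2)) 0 < 1
      linarith
    · change max (-y 0 - -z 0) 0 + max (-y 2 - -z 2) 0 +
        max (- -(y 0 + y 1 + y 2) - - -(z 0 + z 1 + z 2)) 0 < 1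
      rw [show -y 0 - -z 0 = z 0 - y 0 by ring, show -y 2 - -z 2 = z 2 - y 2 by ring,
        show - -(y 0 + y 1 + y 2) - - -(z 0 + z 1 + z 2) =
          -(z 0 + z 1 + z 2) - -(y 0 + y 1 + y 2) by ring]
      linarith
  · change volume (DD ∩ (y +ᵥ DD)) ≤
      ENNReal.ofReal (ff (y 2 - 1) (-y 0) (-y 1) (- -(y 0 + y 1 + y 2)))
    change 1 ≤ y 2 at h1
    have m := max_eq_left (by linarith : 0 ≤ y 2)
    rw [show y 2 - 1 = -y 0 + -y 1 + - -(y 0 + y 1 + y 2) - 1 by ring]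
    refine le_trans ?_ (vol_RR hM (by linarith) (by linarith))
    refine vol_le_RR !![-1, 0, 0; 0, -1, 0; 1, 1, 1] (by simp [Matrix.det_fin_three])
      (fun x => ![-x 0, -x 1, - -(x 0 + x 1 + x 2)]) (fun x => by
        ext i
        fin_cases i <;> simp [dotProduct, Fin.sum_univ_three]) ?_
    intro z hz hz'
    obtain ⟨k1, k2⟩ := key z hz hz'
    have e0 := le_max_right (-z 2) 0
    have e1 := le_max_right (z 2 - y 2) 0
    constructor
    · change max (-z 0) 0 + max (-z 1) 0 + max (- -(z 0 + z 1 + z 2)) 0 < 1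
      linarith
    · change max (-y 0 - -z 0) 0 + max (-y 1 - -z 1) 0 +
        max (- -(y 0 + y 1 + y 2) - - -(z 0 + z 1 + z 2)) 0 < 1
      rw [show -y 0 - -z 0 = z 0 - y 0 by ring, show -y 1 - -z 1 = z 1 - y 1 by ring,
        show - -(y 0 + y 1 + y 2) - - -(z 0 + z 1 + z 2) =
          -(z 0 + z 1 + z 2) - -(y 0 + y 1 + y 2) by ring]
      linarith
  · change volume (DD ∩ (y +ᵥ DD)) ≤
      ENNReal.ofReal (ff (-(y 0 + y 1 + y 2) - 1) (-y 0) (-y 1) (-y 2))
    change 1 ≤ -(y 0 + y 1 + y 2) at h1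
    have m := max_eq_left (by linarith : 0 ≤ -(y 0 + y 1 + y 2))
    rw [show -(y 0 + y 1 + y 2) - 1 = -y 0 + -y 1 + -y 2 - 1 by ring]
    refine le_trans ?_ (vol_RR hM (by linarith) (by linarith))
    refine vol_le_RR !![-1, 0, 0; 0, -1, 0; 0, 0, -1] (by simp [Matrix.det_fin_three])
      (fun x => ![-x 0, -x 1, -x 2]) (fun x => by
        ext i
        fin_cases i <;> simp [dotProduct, Fin.sum_univ_three]) ?_
    intro z hz hz'
    obtain ⟨k1, k2⟩ := key z hz hz'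
    have e0 := le_max_right (- -(z 0 + z 1 + z 2)) 0
    have e1 := le_max_right (-(z 0 + z 1 + z 2) - -(y 0 + y 1 + y 2)) 0
    constructor
    · change max (-z 0) 0 + max (-z 1) 0 + max (-z 2) 0 < 1
      linarith
    · change max (-y 0 - -z 0) 0 + max (-y 1 - -z 1) 0 + max (-y 2 - -z 2) 0 < 1
      rw [show -y 0 - -z 0 = z 0 - y 0 by ring, show -y 1 - -z 1 = z 1 - y 1 by ring,
        show -y 2 - -z 2 = z 2 - y 2 by ring]
      linarith

theorem mainLe : MainLe := fun _ _ _ h0 h1 h2 h3 h4 h5 _ => main_le h0 h1 h2 h3 h4 h5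

/-- **The volume of a cell.** -/
theorem vol_cell (i : Fin 4) (y : Fin 3 → ℝ) (hy : IsCell i (z4 y)) :
    volume (DD ∩ (y +ᵥ DD)) ≤ ENNReal.ofReal (fcl i (z4 y)) := vol_cell_of_main mainLe i y hy

end Pool.Agent.Helper56.TS
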